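import Pool.Agent.Q183.UD.Cur2

/-!
Sequences with relations between consecutive points: algebraic over the coefficients if no families
of curves move.
-/

set_option autoImplicit false

namespace Pool.Agent.Q183.UD

open MvPolynomial Filter Pool.Agent.TH143.DE Pool.Agent.TH143 Pool.Agent.TH143.GT
open Pool.Agent.Q183.RS

variable {n : ℕ} {B : Subalgebra ℂ (ℕ → ℂ)} {J : Type} [Fintype J]

/-- **Sequences given by linear recurrences** with relations between consecutive points are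
algebraic over the coefficients if no families of curves move. -/
theorem alg_dyn (hB : CoefField B) {q R : ℕ} (hR : Fintype.card J * q ≤ R) {x : ℕ → J → ℂ}
    (hx : ∀ j, RecO B q (fun m => x m j)) (S : Set (MvPolynomial (J ⊕ J) ℂ))
    (hS : ∀ F ∈ S, ∀ᶠ m in atTop, eval (Sum.elim (x m) (x (m + 1))) F = 0) :
    ∃ t : ℕ, ∀ (c1 c0 : J → ℂ) (a0 : ℂ),
      (∀ᶠ m in atTop, a0 + lf c0 (x m) ≠ 0) →
      (∀ (l : Fin R → ℤ) (u : ℕ → Fin R → J → ℂ), (∀ᶠ m in atTop, ∑ i, u m i = x (m + t)) →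
        (∀ᶠ m in atTop, ∀ F ∈ S, ∀ w : ℂ, w ≠ 0 → eval (Sum.elim (∑ i, w ^ (l i) • u m i)
          (∑ i, w ^ (l i) • u (m + 1) i)) F = 0) →
        ∀ᶠ m in atTop, lf c1 (∑ i, (l i : ℂ) • u m i) * (a0 + lf c0 (x (m + t))) -
          lf c1 (x (m + t)) * lf c0 (∑ i, (l i : ℂ) • u m i) = 0) →
      AlgOn B Set.univ (fun m => lf c1 (x (m + t)) / (a0 + lf c0 (x (m + t)))) := by
  classical
  obtain ⟨t, ht⟩ := curves2 hB hR hx
  refine ⟨t, fun c1 c0 a0 hz0 hno => ?_⟩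
  by_contra hcon
  obtain ⟨I, hIp, hI, hIA, hIP⟩ := alg_or_prime hB _ _ hcon
  have hdom : IsDomain ((ℕ → ℂ) ⧸ I) := Ideal.Quotient.isDomain I
  let K := FractionRing ((ℕ → ℂ) ⧸ I)
  have htr := trans_of_prime hB hI hIp K hIP
  have hz0t := eventually_shift hz0 t
  have hkz0 : kl (I := I) K (fun m => a0 + lf c0 (x (m + t))) ≠ 0 := by
    intro h0
    unfold kl at h0
    rw [map_eq_zero_iff _ (IsFractionRing.injective ((ℕ → ℂ) ⧸ I) K)] at h0
    have h2 := mk'_zero.1 h0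
    have h3 : (fun m => (a0 + lf c0 (x (m + t)))⁻¹ * (a0 + lf c0 (x (m + t)))) ∈ I :=
      I.mul_mem_left (fun m => (a0 + lf c0 (x (m + t)))⁻¹) h2
    have h4 : (1 : ℕ → ℂ) - (fun m => (a0 + lf c0 (x (m + t)))⁻¹ * (a0 + lf c0 (x (m + t)))) ∈ I := by
      apply hIA
      rw [mem_EA]
      filter_upwards [hz0t] with m hm hmA
      rw [Pi.sub_apply, Pi.one_apply, inv_mul_cancel₀ hm, sub_self]
    have h5 := I.add_mem h4 h3
    rw [sub_add_cancel] at h5
    exact hIp.ne_top ((Ideal.eq_top_iff_one I).2 h5)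
  have hdiv : kl (I := I) K (fun m => lf c1 (x (m + t)) / (a0 + lf c0 (x (m + t)))) =
      kl (I := I) K (fun m => lf c1 (x (m + t))) /
        kl (I := I) K (fun m => a0 + lf c0 (x (m + t))) := by
    rw [eq_div_iff hkz0]
    unfold kl
    rw [← map_mul, ← map_mul]
    congr 1
    rw [← sub_eq_zero, ← map_sub]
    refine mk'_zero.2 (hIA ?_)
    rw [mem_EA]
    filter_upwards [hz0t] with m hm hmA
    rw [Pi.sub_apply, Pi.mul_apply, div_mul_cancel₀ _ hm, sub_self]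
  rw [hdiv] at htr
  obtain ⟨l, u, h1, h2, h3⟩ := ht I hI hIp K c1 c0 a0 hkz0 htr
  -- finitely many polynomials
  obtain ⟨T, hTs, hT⟩ : ∃ T : Finset (MvPolynomial (J ⊕ J) ℂ), (T : Set _) ⊆ S ∧
      Ideal.span S = Ideal.span (T : Set (MvPolynomial (J ⊕ J) ℂ)) :=
    Submodule.fg_span_iff_fg_span_finset_subset S |>.1 (IsNoetherian.noetherian _)
  have hJT : ∀ᶠ m in atTop, ∀ F ∈ T, ∀ w : ℂ, w ≠ 0 → eval (Sum.elim (∑ i, w ^ (l i) • u m i)
      (∑ i, w ^ (l i) • u (m + 1) i)) F = 0 := by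
    rw [Finset.eventually_all]
    intro F hF
    exact h2 F (hS F (hTs hF))
  have hJS : ∀ᶠ m in atTop, ∀ F ∈ S, ∀ w : ℂ, w ≠ 0 → eval (Sum.elim (∑ i, w ^ (l i) • u m i)
      (∑ i, w ^ (l i) • u (m + 1) i)) F = 0 := by
    filter_upwards [hJT] with m h5 F hF w hw
    have h7 : Ideal.span (T : Set (MvPolynomial (J ⊕ J) ℂ)) ≤
        RingHom.ker (eval (Sum.elim (∑ i, w ^ (l i) • u m i)
          (∑ i, w ^ (l i) • u (m + 1) i))) :=
      Ideal.span_le.2 fun G hG => h5 G hG w hw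
    rw [← hT] at h7
    exact h7 (Ideal.subset_span hF)
  apply h3
  apply hIA
  rw [mem_EA]
  filter_upwards [hno l u h1 hJS] with m h4 _
  exact h4

end Pool.Agent.Q183.UD
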