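import Pool.Agent.Q183.UD.Morph
import Pool.Agent.Q183.UH.Fin2

/-!
Finite recurrent sequences which are orbits under morphisms: the ultraproduct argument.
-/

set_option autoImplicit false

namespace Pool.Agent.Q183.UD

open MvPolynomial Filter Pool.Agent.Q183.UH Cardinal Pool.Agent.Q183.RS
open Pool.Agent.TH143.HE (NonConst)

variable {N : ℕ}

/-- common zeros over one algebraically closed field -/
theorem null_up {k K E : Type} [Field k] [Field K] [IsAlgClosed K] [Algebra k K] [Field E]
    [Algebra k E] {f : Fin (N + 1) → MvPolynomial (Fin (N + 1)) k}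
    (hz : ∀ z : Fin (N + 1) → K, (∀ j, aeval z (f j) = 0) → z = 0) (z : Fin (N + 1) → E)
    (h : ∀ j, aeval z (f j) = 0) : z = 0 := by
  classical
  set I : Ideal (MvPolynomial (Fin (N + 1)) k) := Ideal.span (Set.range f) with hI
  have h1 : ∀ i, (X i : MvPolynomial (Fin (N + 1)) k) ∈ I.radical := by
    intro i
    rw [← MvPolynomial.vanishingIdeal_zeroLocus_eq_radical (K := K) I, mem_vanishingIdeal_iff]
    intro w hw
    have h2 : w = 0 := by
      refine hz w fun j => ?_
      exact hw (f j) (Ideal.subset_span ⟨j, rfl⟩)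
    rw [h2, aeval_X]
    rfl
  have h2 : I ≤ RingHom.ker (aeval z : MvPolynomial (Fin (N + 1)) k →ₐ[k] E) := by
    rw [hI, Ideal.span_le]
    rintro _ ⟨j, rfl⟩
    exact h j
  funext i
  obtain ⟨n, hn⟩ := h1 i
  have h3 : aeval z ((X i : MvPolynomial (Fin (N + 1)) k) ^ n) = 0 := h2 hn
  rw [map_pow, aeval_X] at h3
  have h4 : n ≠ 0 := by
    rintro rfl
    rw [pow_zero] at h3
    exact one_ne_zero h3
  exact (pow_eq_zero_iff h4).1 h3

/-- the property of the finite recurrent orbits over `K` -/
def DynOn (K : Type) [Field K] (N s R d : ℕ) (e : Fin s → ℕ) (M C : ℕ) : Prop :=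
  ∀ f : Fin s → Fin (N + 1) → MvPolynomial (Fin (N + 1)) K,
    (∀ k j, (f k j).IsHomogeneous (e k)) →
    (∀ k (z : Fin (N + 1) → K), (∀ j, eval z (f k j) = 0) → z = 0) →
    ∀ (L : ℕ) (x : ℕ → Fin (N + 1) → K), (∀ m, m < L → x m ≠ 0) →
    (∀ m, m + 1 < L → Step f (x m) (x (m + 1))) → (∀ j, RegRec R d L fun m => x m j) →
    ∀ t, C ≤ t → t + M + C ≤ L → Par (x t) (x (t + M))

theorem dyn_core (N s R d : ℕ) (e : Fin s → ℕ) (he : ∀ k, 2 ≤ e k) :
    ∃ M C : ℕ, 0 < M ∧ ∀ (K : Type) [Field K] [CharZero K] [IsAlgClosed K], #K ≤ 𝔠 →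
      DynOn K N s R d e M C := by
  classical
  by_contra hcon
  push Not at hcon
  choose K i1 i2 i3 hK hbad using fun n : ℕ => hcon n.factorial n n.factorial_pos
  unfold DynOn at hbad
  push Not at hbad
  choose f hf hz L x hne hS hrec T hT1 hT2 hT3 using hbad
  let U : Ultrafilter ℕ := hyperfilter ℕ
  have hU : (U : Filter ℕ) ≤ atTop := Nat.hyperfilter_le_atTop
  have hL0 : 0 < L 0 := by
    have := hT2 0
    have h2 := Nat.factorial_pos 0
    omega
  refine contraF (K := K) (RegRec.pos hL0 (hne 0 0 hL0) (hrec 0)) (U := U) hU x L hne hrec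
    (fun n t => False) (fun n t t' ht ht' h1 h2 => h2) T hT1 hT2 (fun n h => by
      unfold GoodZ at h
      rcases h with h | h
      · exact h.1
      · exact hT3 n (Par.symm h)) fun hrecU hneU hbigL => ?_
  choose Q hQhom hQ using fun k j => exists_liftM (e k) (fun n => f n k j) fun n => hf n k j
  let fU : Fin s → Fin (N + 1) → MvPolynomial (Fin (N + 1)) (UK K U) := fun k j =>
    MvPolynomial.map (mk K U) (Q k j)
  have hfU : ∀ k j, (fU k j).IsHomogeneous (e k) := fun k j => (hQhom k j).map _
  -- no common zeros in the ultraproduct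
  have hzU : ∀ k (z : Fin (N + 1) → UK K U), (∀ j, aeval z (fU k j) = 0) → z = 0 := by
    intro k z h
    choose zz hzz using fun i => mk_surj (K := K) (U := U) (z i)
    let x' : ∀ n, ℕ → Fin (N + 1) → K n := fun n _ i => zz i n
    have h1 : XX U x' (fun _ => 0) = z := by
      funext i
      exact hzz i
    have h2 : ∀ j, ∀ᶠ n in (U : Filter ℕ), eval (x' n 0) (f n k j) = 0 := by
      intro j
      have h3 := h j
      rw [aeval_eq_eval, ← h1] at h3
      exact (XX_eval fun n => hQ k j n).1 h3
    have h3 : ∀ᶠ n in (U : Filter ℕ), x' n 0 = 0 := by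
      filter_upwards [eventually_all.2 h2] with n hn
      exact hz n k _ hn
    rw [← h1]
    funext i
    change mk K U (fun n => x' n 0 i) = 0
    rw [mk_zero]
    filter_upwards [h3] with n hn
    rw [hn]
    rfl
  obtain ⟨φ⟩ := exists_emb (UK K U) (card_le hK)
  let _ : Algebra (UK K U) ℂ := φ.toAlgebra
  have hNM : NM fU ∅ := nm_morph he hfU (fun k => null_up (hzU k)) _
  obtain ⟨M, i0, hM, hper⟩ := dyn_window (f := fU) (fun k => ⟨e k, hfU k⟩) (GG := ∅)
    (fun G hG => absurd hG (Set.notMem_empty G)) hNM (y := fun i => XX U x fun _ => i) hneU hrecU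
    (fun m G hG => absurd hG (Set.notMem_empty G)) (fun m => by
      have h1 : ∀ᶠ n in (U : Filter ℕ), ∃ k : Fin s, ∀ i j,
          x n (m + 1) i * eval (x n m) (f n k j) = x n (m + 1) j * eval (x n m) (f n k i) := by
        filter_upwards [hbigL (m + 1)] with n hn
        obtain ⟨k, hk⟩ := hS n m hn
        refine ⟨k, fun i j => ?_⟩
        have h2 := hk i j
        rw [aeval_eq_eval] at h2
        exact h2
      obtain ⟨k, hk⟩ := Ultrafilter.eventually_exists_iff.1 h1
      refine ⟨k, fun i j => ?_⟩
      rw [aeval_eq_eval]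
      have h2 : ∀ j, eval (XX U x fun _ => m) (fU k j) = mk K U fun n => eval (x n m) (f n k j) := by
        intro j
        have h3 : (fun n => eval (x n m) (f n k j)) = eval (fun i n => x n m i) (Q k j) := by
          funext n
          rw [← hQ k j n]
          have h4 := eval₂_comp_left (ev K n) (RingHom.id _) (fun i n => x n m i) (Q k j)
          rw [eval_map]
          change _ = ev K n (eval (fun i n => x n m i) (Q k j))
          rw [eval, coe_eval₂Hom, h4]
          rfl
        rw [h3]
        change eval _ (MvPolynomial.map (mk K U) (Q k j)) = _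
        rw [eval_map, eval, coe_eval₂Hom, eval₂_comp_left (mk K U)]
        rfl
      rw [h2, h2]
      change mk K U (fun n => x n (m + 1) i) * _ = mk K U (fun n => x n (m + 1) j) * _
      rw [← map_mul, ← map_mul, mk_eq]
      filter_upwards [hk] with n hn
      exact hn i j)
  refine ⟨1, fun _ => 0, fun n _ => 1, M, i0, hM, fun n _ => isHomogeneous_one _ _, fun i hi => ?_,
    Eventually.of_forall fun n t _ ht => ?_⟩
  · have h1 := XX_par.1 (hper i hi)
    filter_upwards [h1] with n hn
    exact Or.inr hn.symm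
  · have h1 := ht 0
    rw [map_one] at h1
    exact one_ne_zero h1

end Pool.Agent.Q183.UD
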