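import Pool.Agent.Q183.RS.Alg

/-!
Curves with few terms through the points of a sequence given by linear recurrences, which satisfy
the relations between consecutive points.
-/

set_option autoImplicit false

namespace Pool.Agent.Q183.UD

open MvPolynomial Filter Pool.Agent.TH143.DE Pool.Agent.TH143 Pool.Agent.TH143.GT
open Pool.Agent.Q183.RS

variable {n : ℕ} {B : Subalgebra ℂ (ℕ → ℂ)} {J : Type} [Fintype J]

set_option linter.unusedSectionVars false

/-- the coordinates of two consecutive points as polynomials in the entries of the matrix -/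
noncomputable def Ph2 (A : Fin n → Fin n → B) (E : Matrix J (Fin n) ℂ) (y0 : Fin n → ℂ) :
    J ⊕ J → MvPolynomial (Fin n × Fin n) B
  | Sum.inl j => cB B (Ph E y0 j)
  | Sum.inr j => ∑ i, ∑ i', ∑ k, C (algebraMap ℂ B (E j i * y0 k) * A i i') * X (i', k)

theorem eval_Ph2 (A : Fin n → Fin n → B) (E : Matrix J (Fin n) ℂ) (y0 : Fin n → ℂ) (m : ℕ)
    (V : Matrix (Fin n) (Fin n) ℂ) (p : J ⊕ J) :
    eval (mv V) (at' m (Ph2 A E y0 p)) =
      Sum.elim (E.mulVec (V.mulVec y0)) (E.mulVec ((Am A m * V).mulVec y0)) p := by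
  rcases p with j | j
  · change eval (mv V) (at' m (cB B (Ph E y0 j))) = _
    rw [at'_cB, eval_Ph]
    rfl
  · change eval (mv V) (at' m (∑ i, ∑ i', ∑ k, C (algebraMap ℂ B (E j i * y0 k) * A i i') *
      X (i', k))) = (E.mulVec ((Am A m * V).mulVec y0)) j
    have h1 : ∀ i i' k, eval (mv V) (at' m (C (algebraMap ℂ B (E j i * y0 k) * A i i') *
        X (i', k) : MvPolynomial (Fin n × Fin n) B)) =
        E j i * (Am A m i i' * V i' k * y0 k) := by
      intro i i' k
      have h2 : at' m (X (i', k) : MvPolynomial (Fin n × Fin n) B) = X (i', k) := by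
        unfold at'
        rw [MvPolynomial.mapAlgHom_apply]
        exact MvPolynomial.map_X _ _
      rw [map_mul, at'_C, h2, map_mul, eval_C, eval_X]
      change (E j i * y0 k * (A i i' : ℕ → ℂ) m) * V i' k = _
      change _ = E j i * ((A i i' : ℕ → ℂ) m * V i' k * y0 k)
      ring
    simp only [map_sum, h1]
    change _ = ∑ i, E j i * ∑ k, (∑ i', Am A m i i' * V i' k) * y0 k
    refine Finset.sum_congr rfl fun i _ => ?_
    rw [Finset.sum_comm, Finset.mul_sum]
    refine Finset.sum_congr rfl fun k _ => ?_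
    rw [Finset.sum_mul, Finset.mul_sum]

/-- **Curves with few terms through the points of the sequence.** -/
theorem curves2 (hB : CoefField B) {q R : ℕ} (hR : Fintype.card J * q ≤ R) {x : ℕ → J → ℂ}
    (hx : ∀ j, RecO B q (fun m => x m j)) :
    ∃ t : ℕ, ∀ (I : Ideal (ℕ → ℂ)) (hI : EZ ≤ I) (_ : I.IsPrime) (K : Type) [Field K]
      [Algebra ((ℕ → ℂ) ⧸ I) K] [IsFractionRing ((ℕ → ℂ) ⧸ I) K] [Algebra ℂ K]
      [IsScalarTower ℂ ((ℕ → ℂ) ⧸ I) K] (c1 c0 : J → ℂ) (a0 : ℂ),
      kl (I := I) K (fun m => a0 + lf c0 (x (m + t))) ≠ 0 →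
      Transcendental (cf hB hI K) (kl (I := I) K (fun m => lf c1 (x (m + t))) /
        kl (I := I) K (fun m => a0 + lf c0 (x (m + t)))) →
      ∃ (l : Fin R → ℤ) (u : ℕ → Fin R → J → ℂ),
        (∀ᶠ m in atTop, ∑ i, u m i = x (m + t)) ∧
        (∀ F : MvPolynomial (J ⊕ J) ℂ, (∀ᶠ m in atTop, eval (Sum.elim (x m) (x (m + 1))) F = 0) →
          ∀ᶠ m in atTop, ∀ w : ℂ, w ≠ 0 → eval (Sum.elim (∑ i, w ^ (l i) • u m i)
            (∑ i, w ^ (l i) • u (m + 1) i)) F = 0) ∧
        (fun m => lf c1 (∑ i, (l i : ℂ) • u m i) * (a0 + lf c0 (x (m + t))) -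
          lf c1 (x (m + t)) * lf c0 (∑ i, (l i : ℂ) • u m i)) ∉ I := by
  classical
  obtain ⟨t, n, A, U, E, y0, hn, hU, hdet, hxE⟩ := exists_sysO hB (fun j m => x m j) hx
  refine ⟨t, ?_⟩
  intro I hI hIp K _ _ _ _ _ c1 c0 a0 hz0 htr
  have hdom : IsDomain ((ℕ → ℂ) ⧸ I) := Ideal.Quotient.isDomain I
  have hpt : ∀ᶠ m in atTop, x (m + t) = E.mulVec ((U m).mulVec y0) := by
    filter_upwards [hxE] with m hm
    funext j
    exact hm j
  obtain ⟨D, hD⟩ := der_of_transcendental htr
  set a := algebraMap ((ℕ → ℂ) ⧸ I) K with ha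
  obtain ⟨L, k, P, hP, hgen, hL, hLW⟩ := lie hB A U hU
  let G1 : MvPolynomial (Fin n × Fin n) ℂ := ∑ j, C (c1 j) * Ph E y0 j
  let G0 : MvPolynomial (Fin n × Fin n) ℂ := C a0 + ∑ j, C (c0 j) * Ph E y0 j
  have hG1 : ∀ V : Matrix (Fin n) (Fin n) ℂ, eval (mv V) G1 =
      lf c1 (E.mulVec (V.mulVec y0)) := by
    intro V
    simp only [G1, map_sum, map_mul, eval_C, eval_Ph]
    rfl
  have hG0 : ∀ V : Matrix (Fin n) (Fin n) ℂ, eval (mv V) G0 =
      a0 + lf c0 (E.mulVec (V.mulVec y0)) := by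
    intro V
    simp only [G0, map_add, map_sum, map_mul, eval_C, eval_Ph]
    rfl
  have hD1 : ∀ V β : Matrix (Fin n) (Fin n) ℂ, eval (mv V) (Dc β G1) =
      lf c1 (E.mulVec ((V * β).mulVec y0)) := by
    intro V β
    have h1 : Dc β G1 = ∑ j, C (c1 j) * Dc β (Ph E y0 j) := by
      simp only [G1, map_sum]
      refine Finset.sum_congr rfl fun j _ => ?_
      rw [Derivation.leibniz]
      have h2 : Dc β (C (c1 j)) = 0 := derivation_C _ _
      rw [h2, smul_zero, add_zero, smul_eq_mul]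
    rw [h1]
    simp only [map_sum, map_mul, eval_C, eval_Dc_Ph]
    rfl
  have hD0 : ∀ V β : Matrix (Fin n) (Fin n) ℂ, eval (mv V) (Dc β G0) =
      lf c0 (E.mulVec ((V * β).mulVec y0)) := by
    intro V β
    have h1 : Dc β G0 = ∑ j, C (c0 j) * Dc β (Ph E y0 j) := by
      simp only [G0, map_add, map_sum]
      have h3 : Dc β (C a0) = 0 := derivation_C _ _
      rw [h3, zero_add]
      refine Finset.sum_congr rfl fun j _ => ?_
      rw [Derivation.leibniz]
      have h2 : Dc β (C (c0 j)) = 0 := derivation_C _ _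
      rw [h2, smul_zero, add_zero, smul_eq_mul]
    rw [h1]
    simp only [map_sum, map_mul, eval_C, eval_Dc_Ph]
    rfl
  have hcl1 : a (cl I fun m => eval (mv (U m)) G1) = kl (I := I) K (fun m => lf c1 (x (m + t))) := by
    unfold kl
    congr 1
    change mk' I _ = _
    rw [← sub_eq_zero, ← map_sub]
    refine mk'_zero.2 (hI ?_)
    rw [mem_EZ]
    filter_upwards [hpt] with m hm
    rw [Pi.sub_apply, hm, hG1, sub_self]
  have hcl0 : a (cl I fun m => eval (mv (U m)) G0) =
      kl (I := I) K (fun m => a0 + lf c0 (x (m + t))) := by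
    unfold kl
    congr 1
    change mk' I _ = _
    rw [← sub_eq_zero, ← map_sub]
    refine mk'_zero.2 (hI ?_)
    rw [mem_EZ]
    filter_upwards [hpt] with m hm
    rw [Pi.sub_apply, hm, hG0, sub_self]
  set z1 := kl (I := I) K (fun m => lf c1 (x (m + t))) with hz1d
  set z0 := kl (I := I) K (fun m => a0 + lf c0 (x (m + t))) with hz0d
  obtain ⟨β, hβL, hβ⟩ := exists_beta (B := B) hI D (fun a b => map_add D a b)
    (fun a b => D.leibniz a b) (fun b hb => D.map_algebraMap (⟨_, b, hb, rfl⟩ : cf hB hI K))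
    U hdet L P hP hL G0 G1 (by
      rw [← ha, hcl0, hcl1]
      have h1 : z1 = (z1 / z0) * z0 := (div_mul_cancel₀ _ hz0).symm
      have h2 : D z1 = (z1 / z0) * D z0 + z0 := by
        conv_lhs => rw [h1]
        rw [D.leibniz, hD, smul_eq_mul, smul_eq_mul, mul_one]
      have h3 : D z1 * z0 - z1 * D z0 = z0 ^ 2 := by
        rw [h2]
        linear_combination (-D z0) * h1
      rw [h3]
      exact pow_ne_zero _ hz0)
  obtain ⟨ex, he0, he1, -⟩ := exists_exp_flow β
  have he : ExpF β ex := ⟨he0, he1⟩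
  have hflow : ∀ p : MvPolynomial (Fin n × Fin n) B,
      (∀ᶠ m in atTop, eval (mv (U m)) (at' m p) = 0) →
      ∀ᶠ m in atTop, ∀ t, eval (mv (U m * ex t)) (at' m p) = 0 := by
    intro p hp
    exact flow hP hgen (hLW β hβL) he (P' := p) (mem_JU.2 hp)
  -- the functional
  let ψ : ℕ → (Fin n → ℂ) →ₗ[ℂ] ℂ := fun m =>
    { toFun := fun w => lf c1 (E.mulVec ((U m).mulVec w)) * (a0 + lf c0 (E.mulVec ((U m).mulVec y0))) -
        lf c1 (E.mulVec ((U m).mulVec y0)) * lf c0 (E.mulVec ((U m).mulVec w))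
      map_add' := by
        intro w w'
        simp only [Matrix.mulVec_add, lf, Pi.add_apply, mul_add, Finset.sum_add_distrib]
        ring
      map_smul' := by
        intro c w
        simp only [Matrix.mulVec_smul, lf, Pi.smul_apply, smul_eq_mul, RingHom.id_apply]
        have h1 : ∀ (d : J → ℂ) (v : J → ℂ), ∑ j, d j * (c * v j) = c * ∑ j, d j * v j := by
          intro d v
          rw [Finset.mul_sum]
          exact Finset.sum_congr rfl fun j _ => by ring
        rw [h1, h1]
        ring }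
  have hψ : (fun m => ψ m (β.mulVec y0)) ∉ I := by
    have h1 : (fun m => ψ m (β.mulVec y0)) = fun m => eval (mv (U m)) (Dc β G1) *
        eval (mv (U m)) G0 - eval (mv (U m)) G1 * eval (mv (U m)) (Dc β G0) := by
      funext m
      rw [hD1, hD0, hG1, hG0]
      simp only [ψ, LinearMap.coe_mk, AddHom.coe_mk, Matrix.mulVec_mulVec, Matrix.mul_assoc]
    rw [h1]
    exact hβ
  obtain ⟨l, u, hu, hul, huF⟩ := few he y0 ((hn.trans hR)) I ψ hψ
  refine ⟨l, fun m i => E.mulVec ((U m).mulVec (u i)), ?_, ?_, ?_⟩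
  · filter_upwards [hpt] with m hm
    rw [hm, ← hu, Matrix.mulVec_sum, Matrix.mulVec_sum]
  · intro F hF
    let P' : MvPolynomial (Fin n × Fin n) B := aeval (Ph2 A E y0) F
    have hP' : ∀ (m : ℕ) (V : Matrix (Fin n) (Fin n) ℂ), eval (mv V) (at' m P') =
        eval (Sum.elim (E.mulVec (V.mulVec y0)) (E.mulVec ((Am A m * V).mulVec y0))) F := by
      intro m V
      have h1 : at' m P' = aeval (fun p => at' m (Ph2 A E y0 p)) F :=
        comp_aeval_apply (f := Ph2 A E y0) (at' m) F
      have h2 : eval (mv V) (aeval (fun p => at' m (Ph2 A E y0 p)) F) =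
          aeval (fun p => eval (mv V) (at' m (Ph2 A E y0 p))) F :=
        comp_aeval_apply (f := fun p => at' m (Ph2 A E y0 p))
          (aeval (mv V) : MvPolynomial (Fin n × Fin n) ℂ →ₐ[ℂ] ℂ) F
      rw [h1, h2]
      have h3 : (fun p => eval (mv V) (at' m (Ph2 A E y0 p))) =
          Sum.elim (E.mulVec (V.mulVec y0)) (E.mulVec ((Am A m * V).mulVec y0)) :=
        funext fun p => eval_Ph2 A E y0 m V p
      rw [h3]
      rfl
    have hpt1 := eventually_shift hpt 1
    have h2 := hflow P' (by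
      filter_upwards [hpt, hpt1, hU, eventually_shift hF t] with m h3 h4 h5 h6
      rw [hP', ← h3, ← h5]
      have h7 : m + t + 1 = m + 1 + t := by ring
      rw [h7, h4] at h6
      exact h6)
    filter_upwards [h2, hU] with m hm hUm w hw
    let MM : Matrix (J ⊕ J) (Fin n) ℂ := Matrix.of (Sum.elim (E * U m) (E * U (m + 1)))
    have hMM : ∀ v, MM.mulVec v = Sum.elim ((E * U m).mulVec v) ((E * U (m + 1)).mulVec v) := by
      intro v
      funext p
      rcases p with j | j
      · rfl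
      · rfl
    have h3 := huF MM F (fun s => by
      have h4 := hm s
      rw [hP'] at h4
      rw [← h4, hMM]
      congr 1
      congr 1
      congr 1
      · simp only [Matrix.mulVec_mulVec, Matrix.mul_assoc]
      · rw [hUm]
        simp only [Matrix.mulVec_mulVec, Matrix.mul_assoc]) w hw
    have h4 : ∀ V : Matrix (Fin n) (Fin n) ℂ, (∑ i, w ^ (l i) • E.mulVec (V.mulVec (u i))) =
        (E * V).mulVec (∑ i, w ^ (l i) • u i) := by
      intro V
      rw [Matrix.mulVec_sum]
      refine Finset.sum_congr rfl fun i _ => ?_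
      rw [Matrix.mulVec_smul, Matrix.mulVec_mulVec]
    rw [hMM] at h3
    simp only [h4]
    exact h3
  · have h1 : (fun m => ψ m (∑ i, (l i : ℂ) • u i)) -
        (fun m => lf c1 (∑ i, (l i : ℂ) • E.mulVec ((U m).mulVec (u i))) *
          (a0 + lf c0 (x (m + t))) -
          lf c1 (x (m + t)) * lf c0 (∑ i, (l i : ℂ) • E.mulVec ((U m).mulVec (u i)))) ∈ I := by
      apply hI
      rw [mem_EZ]
      filter_upwards [hpt] with m hm
      have h4 : (∑ i, (l i : ℂ) • E.mulVec ((U m).mulVec (u i))) =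
          E.mulVec ((U m).mulVec (∑ i, (l i : ℂ) • u i)) := by
        rw [Matrix.mulVec_sum, Matrix.mulVec_sum]
        refine Finset.sum_congr rfl fun i _ => ?_
        rw [Matrix.mulVec_smul, Matrix.mulVec_smul]
      rw [Pi.sub_apply, h4, hm]
      simp only [ψ, LinearMap.coe_mk, AddHom.coe_mk]
      ring
    intro h2
    apply hul
    have h3 := I.add_mem h1 h2
    rwa [sub_add_cancel] at h3

end Pool.Agent.Q183.UD
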