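import Pool.Agent.Q183.UD.Henon3

/-!
The number of fixed points of compositions of Henon maps.
-/

set_option autoImplicit false

namespace Pool.Agent.Q183.UD

open Pool.Agent.Q183.UH

section

variable {K ι : Type} [Field K] [Fintype ι] [DecidableEq ι] (T : Finset (ι → K))

/-- monomial functions on the finite set `T` -/
def mono (b : ι → ℕ) : T → K := fun y => ∏ a, y.1 a ^ b a

theorem mono_add (b b' : ι → ℕ) : mono T (b + b') = mono T b * mono T b' := by
  funext y
  simp only [mono, Pi.mul_apply, Pi.add_apply, pow_add, Finset.prod_mul_distrib]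

theorem mono_single (a : ι) (n : ℕ) : mono T (Pi.single a n) = fun y => y.1 a ^ n := by
  funext y
  unfold mono
  rw [Finset.prod_eq_single a]
  · rw [Pi.single_eq_same]
  · intro c _ hc
    rw [Pi.single_eq_of_ne hc, pow_zero]
  · intro h
    exact absurd (Finset.mem_univ a) h

/-- all functions are in the span of the monomial functions -/
theorem mono_top [Nonempty ι] (W : Submodule K (T → K)) (hW : ∀ b, mono T b ∈ W) : W = ⊤ := by
  classical
  let co : ι → T → K := fun a y => y.1 a
  have hmono : ∀ P : MvPolynomial ι K, MvPolynomial.aeval co P ∈ W := by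
    intro P
    rw [MvPolynomial.aeval_def, MvPolynomial.eval₂_eq']
    refine Submodule.sum_mem _ fun s _ => ?_
    have h1 : (algebraMap K (T → K)) (MvPolynomial.coeff s P) * ∏ i, co i ^ s i =
        (MvPolynomial.coeff s P) • mono T (fun i => s i) := by
      funext y
      simp only [Pi.mul_apply, Finset.prod_apply, Pi.pow_apply, Pi.smul_apply, smul_eq_mul]
      rfl
    rw [h1]
    exact W.smul_mem _ (hW _)
  -- the indicator functions
  have hind : ∀ y0 : T, ∃ P : MvPolynomial ι K, MvPolynomial.aeval co P = Pi.single y0 1 := by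
    intro y0
    have h1 : ∀ y : T, ∃ a, y ≠ y0 → y0.1 a - y.1 a ≠ 0 := by
      intro y
      by_cases hy : y = y0
      · exact ⟨Classical.arbitrary ι, fun h => absurd hy h⟩
      · obtain ⟨a, ha⟩ := Function.ne_iff.1 fun h => hy (Subtype.ext h)
        exact ⟨a, fun _ h => ha (sub_eq_zero.1 h).symm⟩
    choose a ha using h1
    refine ⟨∏ y ∈ Finset.univ.erase y0, (MvPolynomial.C (y0.1 (a y) - y.1 (a y))⁻¹ *
      (MvPolynomial.X (a y) - MvPolynomial.C (y.1 (a y)))), ?_⟩
    rw [map_prod]
    funext z
    rw [Finset.prod_apply]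
    have h2 : ∀ y : T, (MvPolynomial.aeval co (MvPolynomial.C (y0.1 (a y) - y.1 (a y))⁻¹ *
        (MvPolynomial.X (a y) - MvPolynomial.C (y.1 (a y))))) z =
        (y0.1 (a y) - y.1 (a y))⁻¹ * (z.1 (a y) - y.1 (a y)) := by
      intro y
      rw [map_mul, map_sub, MvPolynomial.aeval_C, MvPolynomial.aeval_C, MvPolynomial.aeval_X]
      rfl
    rw [Finset.prod_congr rfl fun y _ => h2 y]
    by_cases hz : z = y0
    · rw [hz, Pi.single_eq_same]
      refine Finset.prod_eq_one fun y hy => ?_
      exact inv_mul_cancel₀ (ha y (Finset.ne_of_mem_erase hy))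
    · rw [Pi.single_eq_of_ne hz]
      refine Finset.prod_eq_zero (Finset.mem_erase.2 ⟨hz, Finset.mem_univ z⟩) ?_
      rw [sub_self, mul_zero]
  rw [eq_top_iff]
  intro f _
  have h1 : f = ∑ y0 : T, f y0 • (Pi.single y0 1 : T → K) := by
    funext y
    rw [Finset.sum_apply, Finset.sum_eq_single y]
    · simp
    · intro b _ hb
      rw [Pi.smul_apply, Pi.single_eq_of_ne (Ne.symm hb), smul_zero]
    · intro h
      exact absurd (Finset.mem_univ y) h
  rw [h1]
  refine Submodule.sum_mem _ fun y0 _ => W.smul_mem _ ?_
  obtain ⟨P, hP⟩ := hind y0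
  rw [← hP]
  exact hmono P

end

/-- **Number of solutions of a cyclic system.** -/
theorem card_cyc {K : Type} [Field K] {M : ℕ} [NeZero M] (F : ZMod M → Polynomial K)
    (δ : ZMod M → K) {D : ℕ} (hF : ∀ a, 2 ≤ (F a).natDegree ∧ (F a).natDegree ≤ D) :
    {y : ZMod M → K | ∀ a, (F a).eval (y (a + 1)) = y (a + 2) + δ a * y a}.encard ≤ (D ^ M : ℕ) := by
  classical
  by_contra hcon
  rw [not_le] at hcon
  obtain ⟨T', hT', hcard⟩ := Set.exists_subset_encard_eq (k := (D ^ M : ℕ) + 1) (by
    exact Order.add_one_le_of_lt hcon)
  have hfin : T'.Finite := Set.finite_of_encard_eq_coe (k := D ^ M + 1) (by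
    rw [hcard]
    push_cast
    rfl)
  let T : Finset (ZMod M → K) := hfin.toFinset
  have hTS : ∀ y ∈ T, ∀ a, (F a).eval (y (a + 1)) = y (a + 2) + δ a * y a := by
    intro y hy
    exact hT' (hfin.mem_toFinset.1 hy)
  let W : Submodule K (T → K) :=
    Submodule.span K (Set.range fun b : ZMod M → Fin D => mono T fun a => (b a : ℕ))
  have hW : ∀ n (b : ZMod M → ℕ), ∑ a, b a = n → mono T b ∈ W := by
    intro n
    induction n using Nat.strong_induction_on with
    | _ n ih =>
      intro b hb
      by_cases hlt : ∀ a, b a < D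
      · exact Submodule.subset_span ⟨fun a => ⟨b a, hlt a⟩, rfl⟩
      · push Not at hlt
        obtain ⟨a0, ha0⟩ := hlt
        obtain ⟨a, rfl⟩ : ∃ a, a0 = a + 1 := ⟨a0 - 1, by ring⟩
        set e := (F a).natDegree with he
        have heb : e ≤ b (a + 1) := (hF a).2.trans ha0
        let b' : ZMod M → ℕ := b - Pi.single (a + 1) e
        have hbb : b = b' + Pi.single (a + 1) e := by
          funext c
          simp only [b', Pi.add_apply, Pi.sub_apply]
          by_cases hc : c = a + 1
          · rw [hc, Pi.single_eq_same]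
            omega
          · rw [Pi.single_eq_of_ne hc]
            omega
        have hs : ∀ (c : ZMod M) (m : ℕ),
            ∑ x, (b' + Pi.single c m : ZMod M → ℕ) x = ∑ x, b' x + m := by
          intro c m
          simp only [Pi.add_apply, Finset.sum_add_distrib]
          congr 1
          rw [Finset.sum_eq_single c]
          · rw [Pi.single_eq_same]
          · intro c' _ hc
            exact Pi.single_eq_of_ne hc _
          · intro h
            exact absurd (Finset.mem_univ _) h
        have hsum' : ∑ c, b' c + e = n := by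
          rw [← hb, ← hs (a + 1) e, ← hbb]
        have hF0 : (F a).coeff e ≠ 0 := by
          refine Polynomial.leadingCoeff_ne_zero.2 fun h0 => ?_
          have h1 := (hF a).1
          rw [h0, Polynomial.natDegree_zero] at h1
          omega
        have he2 := (hF a).1
        have key : mono T b = ((F a).coeff e)⁻¹ • (mono T (b' + Pi.single (a + 2) 1) +
            δ a • mono T (b' + Pi.single a 1) -
            ∑ i ∈ Finset.range e, (F a).coeff i • mono T (b' + Pi.single (a + 1) i)) := by
          rw [eq_inv_smul_iff₀ hF0]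
          funext y
          have h1 := hTS y.1 y.2 a
          rw [Polynomial.eval_eq_sum_range, Finset.sum_range_succ, ← he] at h1
          conv_lhs => rw [hbb]
          simp only [mono_add, mono_single, Pi.smul_apply, Pi.mul_apply, smul_eq_mul, Pi.sub_apply,
            Pi.add_apply, Finset.sum_apply, pow_one]
          have h2 : ∑ x ∈ Finset.range e, (F a).coeff x * (mono T b' y * y.1 (a + 1) ^ x) =
              mono T b' y * ∑ x ∈ Finset.range e, (F a).coeff x * y.1 (a + 1) ^ x := by
            rw [Finset.mul_sum]
            exact Finset.sum_congr rfl fun i _ => by ring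
          rw [h2]
          linear_combination mono T b' y * h1
        rw [key]
        refine W.smul_mem _ (W.sub_mem (W.add_mem ?_ (W.smul_mem _ ?_))
          (W.sum_mem fun i hi => W.smul_mem _ ?_))
        · exact ih (∑ x, b' x + 1) (by omega) _ (hs _ _)
        · exact ih (∑ x, b' x + 1) (by omega) _ (hs _ _)
        · exact ih (∑ x, b' x + i) (by have := Finset.mem_range.1 hi; omega) _ (hs _ _)
  have htop : W = ⊤ := mono_top T W fun b => hW _ b rfl
  have h1 : Module.finrank K (T → K) = T.card := by
    rw [Module.finrank_fintype_fun_eq_card, Fintype.card_coe]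
  have h2 : T.card = D ^ M + 1 := by
    have h3 := hcard
    rw [hfin.encard_eq_coe_toFinset_card] at h3
    exact_mod_cast h3
  have h3 : Module.finrank K W ≤ Fintype.card (ZMod M → Fin D) :=
    finrank_range_le_card (R := K) fun b : ZMod M → Fin D => mono T fun a => (b a : ℕ)
  rw [htop, finrank_top, h1, h2, Fintype.card_fun, Fintype.card_fin, ZMod.card] at h3
  omega

end Pool.Agent.Q183.UD
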