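import Pool.Agent.Q183.UD.Core
import Pool.Agent.Q183.UH.Fin3

/-!
Finite recurrent sequences which are orbits under morphisms, over all fields of characteristic zero.
-/

set_option autoImplicit false

namespace Pool.Agent.Q183.UD

open MvPolynomial Filter Pool.Agent.Q183.UH Cardinal Pool.Agent.Q183.RS
open scoped LinearAlgebra.Projectivization

variable {N : ℕ}

theorem of_map_homog {A L : Type} [Field A] [Field L] (ψ : A →+* L) {F : MvPolynomial (Fin (N + 1)) A}
    {e : ℕ} (h : (MvPolynomial.map ψ F).IsHomogeneous e) : F.IsHomogeneous e :=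
  IsHomogeneous.of_map ψ.injective h

theorem dyn_closed (N s R d : ℕ) (e : Fin s → ℕ) (he : ∀ k, 2 ≤ e k) :
    ∃ M C : ℕ, 0 < M ∧ ∀ (L : Type) [Field L] [CharZero L] [IsAlgClosed L],
      DynOn L N s R d e M C := by
  classical
  obtain ⟨M, C, hM, hB⟩ := dyn_core N s R d e he
  refine ⟨M, C, hM, fun L _ _ _ f hf hz l x hne hS hrec => ?_⟩
  choose a had ha hreg using hrec
  let T : Set L := (Set.range fun p : Fin s × Fin (N + 1) × (Fin (N + 1) →₀ ℕ) =>
      (f p.1 p.2.1).coeff p.2.2) ∪
    ((Set.range fun p : ℕ × Fin (N + 1) => x p.1 p.2) ∪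
      Set.range fun p : Fin (N + 1) × ℕ × ℕ => (a p.1 p.2.1).coeff p.2.2)
  have hT : T.Countable := (Set.countable_range _).union ((Set.countable_range _).union
    (Set.countable_range _))
  let k0 := Subfield.closure T
  have hk0 : #k0 ≤ ℵ₀ := (Subfield.cardinalMk_closure_le_max T).trans
    (max_le (Cardinal.le_aleph0_iff_set_countable.2 hT) le_rfl)
  let A := AlgebraicClosure k0
  have hA : #A ≤ 𝔠 := by
    have h1 : #A ≤ max #k0 ℵ₀ := Algebra.IsAlgebraic.cardinalMk_le_max k0 A
    exact h1.trans ((max_le hk0 le_rfl).trans aleph0_le_continuum)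
  let ψ' : A →ₐ[k0] L := IsAlgClosed.lift
  let ψ : A →+* L := ψ'
  have hcz : CharZero A := charZero_of_injective_algebraMap (algebraMap k0 A).injective
  have hTr : ∀ z ∈ T, z ∈ ψ.range := by
    intro z hz
    refine ⟨algebraMap k0 A ⟨z, Subfield.subset_closure hz⟩, ?_⟩
    exact ψ'.commutes _
  choose f' hf' using fun k j => lift_poly ψ (F := f k j) fun c => hTr _ (Or.inl ⟨(k, j, c), rfl⟩)
  choose x' hx' using fun m j => hTr _ (Or.inr (Or.inl ⟨(m, j), rfl⟩) : x m j ∈ T)
  intro t ht1 ht2
  have key := hB A hA f' (fun k j => of_map_homog ψ (by rw [hf']; exact hf k j))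
    (fun k z h => by
      have h1 := hz k (fun j => ψ (z j)) fun j => by
        rw [← hf' k j, eval_mapψ ψ (x' := z) (fun _ => rfl), h j, map_zero]
      funext j
      have h2 : ψ (z j) = 0 := congrFun h1 j
      rwa [map_eq_zero] at h2) l x' (fun m hm h0 => hne m hm (by
      funext j
      rw [← hx', h0]
      simp)) (fun m hm => by
      obtain ⟨k, hk⟩ := hS m hm
      refine ⟨k, fun i j => ψ.injective ?_⟩
      have h1 := hk i j
      rw [aeval_eq_eval] at h1 ⊢
      rw [map_mul, map_mul, hx', hx', ← eval_mapψ ψ (hx' m), ← eval_mapψ ψ (hx' m), hf', hf']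
      exact h1) (fun j => regRec_lift ψ (fun m => hx' m j) (had j) (ha j) (hreg j)
        fun k c => hTr _ (Or.inr (Or.inr ⟨(j, k, c), rfl⟩))) t ht1 ht2
  intro i j
  rw [← hx', ← hx', ← hx', ← hx', ← map_mul, ← map_mul, key i j]

/-- The forms define a morphism of projective space of degree between `2` and `D`: they are
homogeneous of the same degree and have no nontrivial common zero over the algebraic closure. -/
def IsMor {K : Type} [Field K] (D : ℕ) (g : Fin (N + 1) → MvPolynomial (Fin (N + 1)) K) : Prop :=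
  ∃ e, 2 ≤ e ∧ e ≤ D ∧ (∀ j, (g j).IsHomogeneous e) ∧
    ∀ z : Fin (N + 1) → AlgebraicClosure K, (∀ j, aeval z (g j) = 0) → z = 0

/-- steps of a multiple of the period -/
theorem par_chain {L : Type} [Field L] {x : ℕ → Fin (N + 1) → L} {l : ℕ}
    (hne : ∀ m, m < l → x m ≠ 0) {M t : ℕ} (k : ℕ) (hl : t + M * k < l)
    (h : ∀ i < k, Par (x (t + M * i)) (x (t + M * i + M))) : Par (x t) (x (t + M * k)) := by
  induction k with
  | zero => exact Par.refl _
  | succ k ih =>
    have h3 : t + M * (k + 1) = t + M * k + M := by ring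
    rw [h3] at hl ⊢
    exact Par.trans (hne _ (by omega)) (ih (by omega) fun i hi => h i (by omega)) (h k (by omega))

/-- **Finite recurrent orbits**, over all fields of characteristic zero. -/
theorem dyn_final (N s D R d : ℕ) : ∃ M C : ℕ, 0 < M ∧
    ∀ (K : Type) [Field K] [CharZero K] (f : Fin s → Fin (N + 1) → MvPolynomial (Fin (N + 1)) K),
    (∀ k, IsMor D (f k)) → ∀ (l : ℕ) (x : ℕ → Fin (N + 1) → K), (∀ m, m < l → x m ≠ 0) →
    (∀ m, m + 1 < l → Step f (x m) (x (m + 1))) → (∀ j, RegRec R d l fun m => x m j) →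
    ∀ t, C ≤ t → t + M + C ≤ l → Par (x t) (x (t + M)) := by
  classical
  choose M C hM hB using fun e : Fin s → Fin (D + 1) =>
    dyn_closed N s R d (fun k => max 2 (e k : ℕ)) fun k => le_max_left _ _
  refine ⟨∏ e, M e, (∑ e, C e) + 1, Finset.prod_pos fun e _ => hM e,
    fun K _ _ f hf l x hne hS hrec t ht1 ht2 => ?_⟩
  choose e he1 he2 he3 he4 using hf
  let e' : Fin s → Fin (D + 1) := fun k => ⟨e k, by have := he2 k; omega⟩
  let L := AlgebraicClosure K
  let ψ : K →+* L := algebraMap K L
  have hcz : CharZero L := charZero_of_injective_algebraMap ψ.injective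
  have hmax : ∀ k, max 2 ((e' k : Fin (D + 1)) : ℕ) = e k := fun k => max_eq_right (he1 k)
  have hstep : ∀ t, C e' ≤ t → t + M e' + C e' ≤ l → Par (x t) (x (t + M e')) := by
    intro t h1 h2
    have key := hB e' L (fun k j => MvPolynomial.map ψ (f k j)) (fun k j => by
      have h3 := (he3 k j).map ψ
      rw [← hmax k] at h3
      exact h3) (fun k z h => he4 k z fun j => by
        have h3 := h j
        rw [eval_map] at h3
        exact h3) l (fun m j => ψ (x m j)) (fun m hm h0 => hne m hm (by
        funext j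
        have h1 : ψ (x m j) = 0 := congrFun h0 j
        rwa [map_eq_zero] at h1)) (fun m hm => by
        obtain ⟨k, hk⟩ := hS m hm
        refine ⟨k, fun i j => ?_⟩
        have h3 := congrArg ψ (hk i j)
        rw [aeval_eq_eval] at h3 ⊢
        rw [map_mul, map_mul] at h3
        rw [eval_mapψ ψ (x' := x m) (fun _ => rfl), eval_mapψ ψ (x' := x m) (fun _ => rfl)]
        exact h3) (fun j => (hrec j).map ψ) t h1 h2
    intro i j
    apply ψ.injective
    rw [map_mul, map_mul]
    exact key i j
  obtain ⟨k, hk⟩ : M e' ∣ ∏ e, M e := Finset.dvd_prod_of_mem _ (Finset.mem_univ _)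
  have hC : C e' ≤ ∑ e, C e := Finset.single_le_sum (f := C) (fun _ _ => Nat.zero_le _)
    (Finset.mem_univ e')
  rw [hk] at ht2 ⊢
  refine par_chain hne k (by omega) fun i hi => hstep _ (by omega) ?_
  have h4 : M e' * i + M e' ≤ M e' * k := by
    calc M e' * i + M e' = M e' * (i + 1) := by ring
      _ ≤ _ := Nat.mul_le_mul_left _ (by omega)
  omega

/-! ### points of projective space -/

theorem IsMor.ne {K : Type} [Field K] {D : ℕ} {g : Fin (N + 1) → MvPolynomial (Fin (N + 1)) K}
    (h : IsMor D g) {v : Fin (N + 1) → K} (hv : v ≠ 0) : (fun j => aeval v (g j)) ≠ 0 := by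
  obtain ⟨e, _, _, _, h4⟩ := h
  intro h0
  apply hv
  have h1 := h4 (fun j => algebraMap K (AlgebraicClosure K) (v j)) fun j => by
    have h2 : aeval v (g j) = 0 := congrFun h0 j
    have h3 := comp_aeval_apply (f := v) (Algebra.ofId K (AlgebraicClosure K)) (g j)
    rw [h2, map_zero] at h3
    exact h3.symm
  funext j
  have h2 : algebraMap K (AlgebraicClosure K) (v j) = 0 := congrFun h1 j
  rwa [map_eq_zero] at h2

/-- the morphism of projective space given by the forms `g` -/
noncomputable def pmap {K : Type} [Field K] {D : ℕ}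
    {g : Fin (N + 1) → MvPolynomial (Fin (N + 1)) K} (h : IsMor D g)
    (P : ℙ K (Fin (N + 1) → K)) : ℙ K (Fin (N + 1) → K) :=
  Projectivization.mk K (fun j => aeval P.rep (g j)) (h.ne P.rep_nonzero)

theorem pmap_mk {K : Type} [Field K] {D : ℕ}
    {g : Fin (N + 1) → MvPolynomial (Fin (N + 1)) K} (h : IsMor D g) {v : Fin (N + 1) → K}
    (hv : v ≠ 0) : pmap h (Projectivization.mk K v hv) =
      Projectivization.mk K (fun j => aeval v (g j)) (h.ne hv) := by
  unfold pmap
  obtain ⟨a, ha⟩ := Projectivization.exists_smul_eq_mk_rep K v hv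
  have h' := h
  obtain ⟨e, _, _, h3, _⟩ := h'
  rw [Projectivization.mk_eq_mk_iff']
  refine ⟨(a : K) ^ e, ?_⟩
  funext j
  rw [Pi.smul_apply, smul_eq_mul, ← ha]
  exact (aeval_smul_homL (h3 j) (a : K) v).symm

/-- The points `P 0, ..., P (l - 1)` have homogeneous coordinates each of which satisfies a linear
recurrence of order at most `R` whose coefficients are polynomials of degree at most `d` in the
index, such that the first and the last coefficient do not vanish at the indices at which the
recurrence holds. -/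
def Recurrent {K : Type} [Field K] (R d l : ℕ) (P : ℕ → ℙ K (Fin (N + 1) → K)) : Prop :=
  ∃ x : ℕ → Fin (N + 1) → K,
    (∀ m, m < l → ∃ h : x m ≠ 0, P m = Projectivization.mk K (x m) h) ∧
    ∀ j, FinRec R d l fun m => x m j

/-- **Finite recurrent orbits** of points. -/
theorem dyn_points (N s D : ℕ) : ∃ M C : ℕ → ℕ → ℕ, (∀ R d, 0 < M R d) ∧
    ∀ (K : Type) [Field K] [CharZero K] (f : Fin s → Fin (N + 1) → MvPolynomial (Fin (N + 1)) K)
    (hf : ∀ k, IsMor D (f k)) (R d l : ℕ) (P : ℕ → ℙ K (Fin (N + 1) → K)),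
    (∀ t, t + 1 < l → ∃ k, P (t + 1) = pmap (hf k) (P t)) → Recurrent R d l P →
    ∀ t, C R d ≤ t → t + M R d + C R d ≤ l → P (t + M R d) = P t := by
  classical
  choose M C hM hB using fun R d => dyn_final N s D R d
  refine ⟨M, fun R d => C R d + R, hM, fun K _ _ f hf R d l P hS hP t ht1 ht2 => ?_⟩
  obtain ⟨x, hP, hrec⟩ := hP
  change C R d + R ≤ t at ht1
  change t + M R d + (C R d + R) ≤ l at ht2
  have hMR := hM R d
  have h3 := hB R d K f hf (l - R) x (fun m hm => (hP m (by omega)).1) (fun m hm => by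
    obtain ⟨n1, e1⟩ := hP m (by omega)
    obtain ⟨n2, e2⟩ := hP (m + 1) (by omega)
    obtain ⟨k, hk⟩ := hS m (by omega)
    refine ⟨k, fun i j => ?_⟩
    rw [e1, e2, pmap_mk, Projectivization.mk_eq_mk_iff'] at hk
    obtain ⟨a, ha⟩ := hk
    have h1 : ∀ i, x (m + 1) i = a * aeval (x m) (f k i) := fun i => (congrFun ha i).symm
    rw [h1, h1]
    ring) (fun j => (hrec j).reg) t (by omega) (by omega)
  obtain ⟨n1, e1⟩ := hP t (by omega)
  by_cases hC : t + M R d < l
  · obtain ⟨n2, e2⟩ := hP (t + M R d) hC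
    rw [e1, e2]
    exact (h3.eq n1 n2).symm
  · exfalso
    have hR0 : R = 0 := by omega
    subst hR0
    apply (hP t (by omega)).1
    funext j
    obtain ⟨q, a, hq, -, ha⟩ := hrec j
    have hq0 : q = 0 := by omega
    subst hq0
    have h5 := ha t (by omega)
    simp only [Finset.sum_range_succ, Finset.sum_range_zero, zero_add, Nat.add_zero] at h5
    exact (mul_eq_zero.1 h5.2.2).resolve_left h5.1

end Pool.Agent.Q183.UD
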