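import Pool.Agent.Q183.UD.Cyc

/-!
The number of fixed points of an iterate of a Henon map.
-/

set_option autoImplicit false

namespace Pool.Agent.Q183.UD

open Pool.Agent.Q183.UH

theorem hen_fixed {K : Type} [Field K] {M D : ℕ} (hM : 0 < M) (F : Polynomial K) (δ : K)
    (hF : 2 ≤ F.natDegree ∧ F.natDegree ≤ D) :
    {Q : K × K | (henon F δ)^[M] Q = Q}.encard ≤ (D ^ M : ℕ) := by
  classical
  have : NeZero M := ⟨hM.ne'⟩
  let u : K × K → ℕ → K := fun Q t => ((henon F δ)^[t] Q).1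
  have hu1 : ∀ Q t, u Q (t + 1) = ((henon F δ)^[t] Q).2 := by
    intro Q t
    simp only [u, Function.iterate_succ_apply']
    rfl
  have hu2 : ∀ Q t, F.eval (u Q (t + 1)) = u Q (t + 2) + δ * u Q t := by
    intro Q t
    rw [hu1 Q (t + 1), Function.iterate_succ_apply']
    change _ = (F.eval ((henon F δ)^[t] Q).2 - δ * ((henon F δ)^[t] Q).1) + δ * u Q t
    rw [hu1]
    simp only [u]
    ring
  have hper : ∀ Q, (henon F δ)^[M] Q = Q → ∀ t, u Q (t + M) = u Q t := by
    intro Q hQ t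
    simp only [u, Function.iterate_add_apply, hQ]
  have hval : ∀ Q, (henon F δ)^[M] Q = Q → ∀ n : ℕ, u Q ((n : ZMod M)).val = u Q n := by
    intro Q hQ n
    rw [ZMod.val_natCast]
    have h1 : ∀ k m, u Q (m + M * k) = u Q m := by
      intro k
      induction k with
      | zero => intro m; rw [Nat.mul_zero, Nat.add_zero]
      | succ k ih =>
        intro m
        rw [Nat.mul_succ, ← Nat.add_assoc, hper Q hQ, ih]
    conv_rhs => rw [← Nat.mod_add_div n M]
    rw [h1]
  let g : K × K → ZMod M → K := fun Q a => u Q a.val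
  have hg : ∀ Q ∈ {Q : K × K | (henon F δ)^[M] Q = Q}, g Q ∈ {y : ZMod M → K |
      ∀ a, ((fun _ : ZMod M => F) a).eval (y (a + 1)) = y (a + 2) + (fun _ : ZMod M => δ) a * y a} := by
    intro Q hQ a
    obtain ⟨n, rfl⟩ : ∃ n : ℕ, (n : ZMod M) = a := ⟨a.val, ZMod.natCast_zmod_val a⟩
    have e1 : g Q ((n : ZMod M) + 1) = u Q (n + 1) := by
      have := hval Q hQ (n + 1)
      rwa [Nat.cast_add, Nat.cast_one] at this
    have e2 : g Q ((n : ZMod M) + 2) = u Q (n + 2) := by
      have := hval Q hQ (n + 2)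
      rwa [Nat.cast_add, Nat.cast_ofNat] at this
    have e3 : g Q (n : ZMod M) = u Q n := hval Q hQ n
    simp only
    rw [e1, e2, e3, hu2]
  have hinj : Set.InjOn g {Q : K × K | (henon F δ)^[M] Q = Q} := by
    intro Q hQ Q' hQ' h
    have e0 : ∀ Q, (henon F δ)^[M] Q = Q → g Q ((0 : ℕ) : ZMod M) = Q.1 := fun Q hQ => hval Q hQ 0
    have e1 : ∀ Q, (henon F δ)^[M] Q = Q → g Q ((1 : ℕ) : ZMod M) = Q.2 := by
      intro Q hQ
      have := hval Q hQ 1
      rw [hu1 Q 0] at this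
      exact this
    refine Prod.ext ?_ ?_
    · rw [← e0 Q hQ, ← e0 Q' hQ', h]
    · rw [← e1 Q hQ, ← e1 Q' hQ', h]
  have hsub : g '' {Q : K × K | (henon F δ)^[M] Q = Q} ⊆ {y : ZMod M → K |
      ∀ a, ((fun _ : ZMod M => F) a).eval (y (a + 1)) = y (a + 2) + (fun _ : ZMod M => δ) a * y a} := by
    rintro _ ⟨Q, hQ, rfl⟩
    exact hg Q hQ
  rw [← hinj.encard_image]
  exact (Set.encard_le_encard hsub).trans (card_cyc (fun _ => F) (fun _ => δ) fun _ => hF)

theorem henon_injective {K : Type} [Field K] (F : Polynomial K) {δ : K} (hδ : δ ≠ 0) :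
    Function.Injective (henon F δ) := by
  intro P Q h
  have h' := Prod.mk.inj h
  have h1 : P.2 = Q.2 := h'.1
  have h2 : F.eval P.2 - δ * P.1 = F.eval Q.2 - δ * Q.1 := h'.2
  refine Prod.ext (mul_left_cancel₀ hδ ?_) h1
  rw [h1] at h2
  linear_combination -h2

end Pool.Agent.Q183.UD
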