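import Pool.Agent.Q183.UD.Line

/-!
Henon maps: no bounded families of curves move.
-/

set_option autoImplicit false

namespace Pool.Agent.Q183.UD

open MvPolynomial Filter Pool.Agent.Q183.UH
open Pool.Agent.TH143.HE (NonConst)

/-- the homogeneous polynomial of degree `D` of a polynomial of degree at most `D`, at a pair -/
noncomputable def hom2 {k A : Type} [Field k] [CommRing A] [Algebra k A] (F : Polynomial k) (D : ℕ)
    (y z : A) : A := ∑ i ∈ Finset.range (D + 1), algebraMap k A (F.coeff i) * y ^ i * z ^ (D - i)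

/-- the forms of the Henon map `(x, y) ↦ (y, F y - δ x)` -/
noncomputable def hen {k : Type} [Field k] (F : Polynomial k) (δ : k) :
    Fin (2 + 1) → MvPolynomial (Fin (2 + 1)) k
  | 0 => X 1 * X 2 ^ (F.natDegree - 1)
  | 1 => hom2 F F.natDegree (X 1) (X 2) - C δ * X 0 * X 2 ^ (F.natDegree - 1)
  | 2 => X 2 ^ F.natDegree

theorem hom2_map {k A A' : Type} [Field k] [CommRing A] [Algebra k A] [CommRing A'] [Algebra k A']
    (g : A →ₐ[k] A') (F : Polynomial k) (D : ℕ) (y z : A) :
    g (hom2 F D y z) = hom2 F D (g y) (g z) := by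
  unfold hom2
  rw [map_sum]
  refine Finset.sum_congr rfl fun i _ => ?_
  rw [map_mul, map_mul, map_pow, map_pow, AlgHom.commutes]

theorem hom2_smul {k A : Type} [Field k] [CommRing A] [Algebra k A] (F : Polynomial k) (D : ℕ)
    (g y z : A) : hom2 F D (g * y) (g * z) = g ^ D * hom2 F D y z := by
  unfold hom2
  rw [Finset.mul_sum]
  refine Finset.sum_congr rfl fun i hi => ?_
  have h1 : i + (D - i) = D := by
    have := Finset.mem_range.1 hi
    omega
  rw [mul_pow, mul_pow]
  have h2 : g ^ D = g ^ i * g ^ (D - i) := by rw [← pow_add, h1]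
  rw [h2]
  ring

theorem hen_homog {k : Type} [Field k] {F : Polynomial k} (hF : 2 ≤ F.natDegree) (δ : k)
    (j : Fin (2 + 1)) : (hen F δ j).IsHomogeneous F.natDegree := by
  have h1 : 1 + (F.natDegree - 1) = F.natDegree := by omega
  fin_cases j
  · change (X 1 * X 2 ^ (F.natDegree - 1) : MvPolynomial (Fin (2 + 1)) k).IsHomogeneous _
    have h2 := (isHomogeneous_X k (1 : Fin (2 + 1))).mul
      ((isHomogeneous_X k (2 : Fin (2 + 1))).pow (F.natDegree - 1))
    rwa [one_mul, h1] at h2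
  · change (hom2 F F.natDegree (X 1) (X 2) - C δ * X 0 * X 2 ^ (F.natDegree - 1) :
      MvPolynomial (Fin (2 + 1)) k).IsHomogeneous _
    refine IsHomogeneous.sub ?_ ?_
    · unfold hom2
      refine IsHomogeneous.sum _ _ _ fun i hi => ?_
      have h3 : i + (F.natDegree - i) = F.natDegree := by
        have := Finset.mem_range.1 hi
        omega
      have h2 := ((isHomogeneous_C (Fin (2 + 1)) (F.coeff i)).mul
        ((isHomogeneous_X k (1 : Fin (2 + 1))).pow i)).mul
        ((isHomogeneous_X k (2 : Fin (2 + 1))).pow (F.natDegree - i))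
      rwa [one_mul, one_mul, zero_add, h3] at h2
    · have h2 := ((isHomogeneous_C (Fin (2 + 1)) δ).mul
        (isHomogeneous_X k (0 : Fin (2 + 1)))).mul
        ((isHomogeneous_X k (2 : Fin (2 + 1))).pow (F.natDegree - 1))
      rwa [zero_add, one_mul, h1] at h2
  · change (X 2 ^ F.natDegree : MvPolynomial (Fin (2 + 1)) k).IsHomogeneous _
    have h2 := (isHomogeneous_X k (2 : Fin (2 + 1))).pow F.natDegree
    rwa [one_mul] at h2

section

variable {k A : Type} [Field k] [CommRing A] [Algebra k A] (F : Polynomial k) (δ : k)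
  (v : Fin (2 + 1) → A)

theorem aeval_hen0 : aeval v (hen F δ 0) = v 1 * v 2 ^ (F.natDegree - 1) := by
  change aeval v (X 1 * X 2 ^ (F.natDegree - 1) : MvPolynomial (Fin (2 + 1)) k) = _
  rw [map_mul, map_pow, aeval_X, aeval_X]

theorem aeval_hen1 : aeval v (hen F δ 1) = hom2 F F.natDegree (v 1) (v 2) -
    algebraMap k A δ * v 0 * v 2 ^ (F.natDegree - 1) := by
  change aeval v (hom2 F F.natDegree (X 1) (X 2) - C δ * X 0 * X 2 ^ (F.natDegree - 1) :
    MvPolynomial (Fin (2 + 1)) k) = _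
  rw [map_sub, hom2_map, map_mul, map_mul, map_pow, aeval_X, aeval_X, aeval_X, aeval_C]

theorem aeval_hen2 : aeval v (hen F δ 2) = v 2 ^ F.natDegree := by
  change aeval v (X 2 ^ F.natDegree : MvPolynomial (Fin (2 + 1)) k) = _
  rw [map_pow, aeval_X]

end

/-- the relations of a step -/
theorem hen_step {k A : Type} [Field k] [CommRing A] [IsDomain A] [Algebra k A] {F : Polynomial k}
    (hF : 2 ≤ F.natDegree) {δ : k} {v w : Fin (2 + 1) → A} (hv : v 2 ≠ 0)
    (h : ∀ i j, w i * aeval v (hen F δ j) = w j * aeval v (hen F δ i)) :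
    w 0 * v 2 = w 2 * v 1 ∧ w 1 * v 2 ^ F.natDegree = w 2 * (hom2 F F.natDegree (v 1) (v 2) -
      algebraMap k A δ * v 0 * v 2 ^ (F.natDegree - 1)) := by
  have h1 := h 0 2
  have h2 := h 1 2
  rw [aeval_hen2, aeval_hen0] at h1
  rw [aeval_hen2, aeval_hen1] at h2
  refine ⟨?_, h2⟩
  have h3 : v 2 ^ F.natDegree = v 2 ^ (F.natDegree - 1) * v 2 := by
    rw [← pow_succ]
    congr 1
    omega
  rw [h3] at h1
  have h4 : v 2 ^ (F.natDegree - 1) * (w 0 * v 2) = v 2 ^ (F.natDegree - 1) * (w 2 * v 1) := by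
    linear_combination h1
  exact mul_left_cancel₀ (pow_ne_zero _ hv) h4

/-- primitive pairs -/
theorem prim2 (y z : Polynomial ℂ) (hz : z ≠ 0) : ∃ g a b u v : Polynomial ℂ, g ≠ 0 ∧ y = g * a ∧
    z = g * b ∧ u * a + v * b = 1 := by
  obtain ⟨g, q, h, hg, hq, hh⟩ := primitive_rep (N := 1) ![y, z] (by
    intro h0
    have h1 := congrFun h0 1
    simp at h1
    exact hz h1)
  refine ⟨g, q 0, q 1, h 0, h 1, hg, hq 0, hq 1, ?_⟩
  rw [Fin.sum_univ_two] at hh
  exact hh

theorem hom2_eval_ne {k : Type} [Field k] [Algebra k ℂ] {F : Polynomial k} (hF : 2 ≤ F.natDegree)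
    {a b : Polynomial ℂ} {z : ℂ} (ha : a.eval z ≠ 0) (hb : b.eval z = 0) :
    (hom2 F F.natDegree a b).eval z ≠ 0 := by
  unfold hom2
  rw [Polynomial.eval_finsetSum, Finset.sum_range_succ, Finset.sum_eq_zero]
  · rw [zero_add, Nat.sub_self, pow_zero, mul_one, Polynomial.eval_mul, Polynomial.eval_pow,
      Polynomial.algebraMap_apply, Polynomial.eval_C]
    refine mul_ne_zero ?_ (pow_ne_zero _ ha)
    rw [Ne, map_eq_zero]
    have h0 : F ≠ 0 := by
      rintro rfl
      simp at hF
    exact Polynomial.leadingCoeff_ne_zero.2 h0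
  · intro i hi
    have h1 := Finset.mem_range.1 hi
    rw [Polynomial.eval_mul, Polynomial.eval_pow (p := b), hb, zero_pow (by omega), mul_zero]

/-- growth of the order of a pole -/
theorem pole_grow {k : Type} [Field k] [Algebra k ℂ] {F : Polynomial k} (hF : 2 ≤ F.natDegree)
    {δ : Polynomial ℂ} {a₀ b₀ a b a' b' u v : Polynomial ℂ} {z : ℂ} (hb₀ : b₀ ≠ 0)
    (huv : u * a + v * b = 1)
    (hrel : a' * b ^ F.natDegree * b₀ =
      b' * (hom2 F F.natDegree a b * b₀ - δ * a₀ * b ^ F.natDegree)) {e : ℕ}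
    (he : 1 ≤ e) (hbe : (Polynomial.X - Polynomial.C z) ^ e ∣ b)
    (he₀ : ¬ (Polynomial.X - Polynomial.C z) ^ (2 * e) ∣ b₀) :
    (Polynomial.X - Polynomial.C z) ^ (2 * e) ∣ b' := by
  classical
  set D := F.natDegree with hD
  set q : Polynomial ℂ := Polynomial.X - Polynomial.C z with hq
  have hq0 : q ≠ 0 := Polynomial.X_sub_C_ne_zero z
  have hprime : Prime q := Polynomial.prime_X_sub_C z
  have hbz : b.eval z = 0 := by
    obtain ⟨c, hc⟩ := (dvd_pow_self q (by omega : e ≠ 0)).trans hbe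
    rw [hc, Polynomial.eval_mul, hq, Polynomial.eval_sub, Polynomial.eval_X, Polynomial.eval_C,
      sub_self, zero_mul]
  have haz : a.eval z ≠ 0 := by
    intro h0
    have h1 := congrArg (Polynomial.eval z) huv
    rw [Polynomial.eval_add, Polynomial.eval_mul, Polynomial.eval_mul, hbz, h0, mul_zero,
      mul_zero, add_zero, Polynomial.eval_one] at h1
    exact zero_ne_one h1
  have hA := hom2_eval_ne hF haz hbz
  -- the exact order of `b₀`
  obtain ⟨c, hc, hcq⟩ : ∃ c, b₀ = q ^ (b₀.rootMultiplicity z) * c ∧ ¬ q ∣ c := by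
    obtain ⟨c, h1, h2⟩ := Polynomial.exists_eq_pow_rootMultiplicity_mul_and_not_dvd b₀ hb₀ z
    exact ⟨c, h1, h2⟩
  set e₀ := b₀.rootMultiplicity z with he₀d
  have he₀lt : e₀ < 2 * e := by
    by_contra hcon
    push Not at hcon
    exact he₀ ((pow_dvd_pow q hcon).trans ⟨c, hc⟩)
  obtain ⟨c1, hc1⟩ := hbe
  have h2e : 2 * e ≤ D * e := Nat.mul_le_mul_right _ hF
  have hbD : b ^ D = q ^ (D * e) * c1 ^ D := by
    rw [hc1, mul_pow, ← pow_mul, mul_comm e D]
  -- the factor on the right
  set W := hom2 F D a b * c - δ * a₀ * (q ^ (D * e - e₀) * c1 ^ D) with hW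
  have hWq : ¬ q ∣ W := by
    intro h1
    have h2 : q ∣ δ * a₀ * (q ^ (D * e - e₀) * c1 ^ D) := by
      have h3 : q ∣ q ^ (D * e - e₀) := dvd_pow_self q (by omega)
      exact (h3.mul_right _).mul_left _
    have h3 : q ∣ hom2 F D a b * c := by
      have h4 := dvd_add h1 h2
      rwa [hW, sub_add_cancel] at h4
    rcases hprime.dvd_or_dvd h3 with h4 | h4
    · apply hA
      obtain ⟨r, hr⟩ := h4
      rw [hr, Polynomial.eval_mul, hq, Polynomial.eval_sub, Polynomial.eval_X, Polynomial.eval_C,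
        sub_self, zero_mul]
    · exact hcq h4
  have hfac : hom2 F D a b * b₀ - δ * a₀ * b ^ D = q ^ e₀ * W := by
    rw [hW, hbD]
    conv_lhs => rw [hc]
    have h3 : q ^ (D * e) = q ^ e₀ * q ^ (D * e - e₀) := by
      rw [← pow_add]
      congr 1
      omega
    rw [h3]
    ring
  rw [hfac] at hrel
  have h4 : q ^ (D * e) ∣ b' * W := by
    refine ⟨a' * c1 ^ D * c, ?_⟩
    apply mul_left_cancel₀ (pow_ne_zero e₀ hq0)
    calc q ^ e₀ * (b' * W) = b' * (q ^ e₀ * W) := by ring
      _ = a' * b ^ D * b₀ := hrel.symm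
      _ = a' * (q ^ (D * e) * c1 ^ D) * (q ^ e₀ * c) := by rw [hbD, ← hc]
      _ = _ := by ring
  have h5 : q ^ (2 * e) ∣ b' * W := (pow_dvd_pow q h2e).trans h4
  exact (Prime.pow_dvd_of_dvd_mul_right hprime _ hWq h5)

/-- the relation between three consecutive primitive pairs -/
theorem prim_rel {k : Type} [Field k] [Algebra k ℂ] {F : Polynomial k} (hF : 2 ≤ F.natDegree)
    {δ : k} {x g₀ a₀ b₀ g a b g' a' b' : Polynomial ℂ} (hg₀ : g₀ ≠ 0) (hg : g ≠ 0) (hg' : g' ≠ 0)
    (h1 : x * (g₀ * b₀) = g * b * (g₀ * a₀))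
    (h2 : g' * a' * (g * b) ^ F.natDegree = g' * b' * (hom2 F F.natDegree (g * a) (g * b) -
      algebraMap k (Polynomial ℂ) δ * x * (g * b) ^ (F.natDegree - 1))) :
    a' * b ^ F.natDegree * b₀ =
      b' * (hom2 F F.natDegree a b * b₀ - algebraMap k (Polynomial ℂ) δ * a₀ * b ^ F.natDegree) := by
  rw [hom2_smul] at h2
  have e1 : x * b₀ = g * b * a₀ := by
    apply mul_left_cancel₀ hg₀
    linear_combination h1
  obtain ⟨n, hn⟩ : ∃ n, F.natDegree = n + 1 := ⟨F.natDegree - 1, by omega⟩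
  rw [hn] at h2 ⊢
  rw [Nat.add_sub_cancel] at h2
  set A := hom2 F (n + 1) a b
  set d := algebraMap k (Polynomial ℂ) δ
  apply mul_left_cancel₀ (mul_ne_zero hg' (pow_ne_zero (n + 1) hg))
  rw [mul_pow, mul_pow] at h2
  calc g' * g ^ (n + 1) * (a' * b ^ (n + 1) * b₀) = (g' * a' * (g ^ (n + 1) * b ^ (n + 1))) * b₀ := by
        ring
    _ = (g' * b' * (g ^ (n + 1) * A - d * x * (g ^ n * b ^ n))) * b₀ := by rw [h2]
    _ = g' * b' * (g ^ (n + 1) * A * b₀ - d * (x * b₀) * (g ^ n * b ^ n)) := by ring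
    _ = g' * b' * (g ^ (n + 1) * A * b₀ - d * (g * b * a₀) * (g ^ n * b ^ n)) := by rw [e1]
    _ = _ := by ring

/-- **No poles**: the last coordinate divides the second one. -/
theorem hen_dvd {κ : Type} {L : Type} [Field L] [Algebra L ℂ] {F : κ → Polynomial L}
    (hF : ∀ k, 2 ≤ (F k).natDegree) {δ : κ → L} {p : ℕ → Fin (2 + 1) → Polynomial ℂ} {D : ℕ}
    (hD : ∀ m i, (p m i).natDegree ≤ D) (hz : ∀ m, p m 2 ≠ 0)
    (hS : ∀ m, Step (fun k => hen (F k) (δ k)) (p m) (p (m + 1))) (m : ℕ) (hm : D + 1 ≤ m) :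
    p m 2 ∣ p m 1 := by
  classical
  choose g a b u v hg hy hzz huv using fun m => prim2 (p m 1) (p m 2) (hz m)
  have hb : ∀ m, b m ≠ 0 := by
    intro m h0
    apply hz m
    rw [hzz, h0, mul_zero]
  have hbD : ∀ m, (b m).natDegree ≤ D := by
    intro m
    have h1 := hD m 2
    rw [hzz, Polynomial.natDegree_mul (hg m) (hb m)] at h1
    omega
  have hrel : ∀ m, ∃ k, a (m + 2) * b (m + 1) ^ (F k).natDegree * b m =
      b (m + 2) * (hom2 (F k) (F k).natDegree (a (m + 1)) (b (m + 1)) * b m -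
        algebraMap L (Polynomial ℂ) (δ k) * a m * b (m + 1) ^ (F k).natDegree) := by
    intro m
    obtain ⟨k0, hk0⟩ := hS m
    obtain ⟨k, hk⟩ := hS (m + 1)
    obtain ⟨h1, -⟩ := hen_step (hF k0) (hz m) hk0
    obtain ⟨-, h2⟩ := hen_step (hF k) (hz (m + 1)) hk
    refine ⟨k, prim_rel (x := p (m + 1) 0) (hF k) (hg m) (hg (m + 1)) (hg (m + 2)) ?_ ?_⟩
    · rw [← hzz, ← hzz, ← hy]
      exact h1
    · rw [← hzz, ← hzz, ← hy, ← hy]
      exact h2
  have hno : ∀ z : ℂ, (b m).rootMultiplicity z = 0 := by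
    intro z
    let e : ℕ → ℕ := fun m => (b m).rootMultiplicity z
    have heD : ∀ m, e m ≤ D := by
      intro m
      have h1 := Polynomial.natDegree_le_of_dvd
        ((Polynomial.le_rootMultiplicity_iff (hb m)).1 (le_refl (e m))) (hb m)
      rw [Polynomial.natDegree_pow, Polynomial.natDegree_X_sub_C, mul_one] at h1
      exact h1.trans (hbD m)
    have hgrow : ∀ m, 1 ≤ e (m + 1) → e m < 2 * e (m + 1) → 2 * e (m + 1) ≤ e (m + 2) := by
      intro m h1 h2
      obtain ⟨k, hk⟩ := hrel m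
      rw [Polynomial.le_rootMultiplicity_iff (hb _)]
      refine pole_grow (hF k) (hb m) (huv (m + 1)) hk h1
        ((Polynomial.le_rootMultiplicity_iff (hb _)).1 le_rfl) ?_
      rw [← Polynomial.le_rootMultiplicity_iff (hb _)]
      exact not_le.2 h2
    have hnot : ∀ m, 1 ≤ e (m + 1) → 2 * e (m + 1) ≤ e m := by
      intro m h1
      by_contra hcon
      push Not at hcon
      have h2 : ∀ i, 2 ^ i ≤ e (m + 1 + i) ∧ e (m + i) < 2 * e (m + 1 + i) := by
        intro i
        induction i with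
        | zero => exact ⟨by simpa using h1, by simpa using hcon⟩
        | succ i ih =>
          have h3 : 1 ≤ e (m + i + 1) := by
            have h4 : m + 1 + i = m + i + 1 := by ring
            rw [← h4]
            exact (Nat.one_le_two_pow).trans ih.1
          have h5 := hgrow (m + i) h3 (by
            have h4 : m + 1 + i = m + i + 1 := by ring
            rw [← h4]
            exact ih.2)
          have h4 : m + 1 + i = m + i + 1 := by ring
          have h6 : m + 1 + (i + 1) = m + i + 2 := by ring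
          have h7 : m + (i + 1) = m + i + 1 := by ring
          rw [h4] at ih
          rw [h6, h7, pow_succ]
          constructor
          · omega
          · omega
      have h3 := (h2 (D + 1)).1
      have h4 := heD (m + 1 + (D + 1))
      have h5 : D + 1 < 2 ^ (D + 1) := Nat.lt_two_pow_self
      omega
    by_contra hne
    have hpos : 1 ≤ e m := Nat.one_le_iff_ne_zero.2 hne
    have h2 : ∀ i, i ≤ m → 2 ^ i ≤ e (m - i) := by
      intro i
      induction i with
      | zero => intro _; simpa using hpos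
      | succ i ih =>
        intro hi
        have h3 := ih (by omega)
        have h4 : m - i = (m - (i + 1)) + 1 := by omega
        rw [h4] at h3
        have h5 := hnot (m - (i + 1)) ((Nat.one_le_two_pow).trans h3)
        rw [pow_succ]
        omega
    have h3 := h2 m le_rfl
    have h4 := heD (m - m)
    have h5 : m < 2 ^ m := Nat.lt_two_pow_self
    omega
  -- `b m` is constant
  have hdeg : (b m).degree = 0 := by
    by_contra hcon
    obtain ⟨z, hz0⟩ := IsAlgClosed.exists_root (b m) hcon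
    have h1 := (Polynomial.rootMultiplicity_pos (hb m)).2 hz0
    rw [hno z] at h1
    exact lt_irrefl _ h1
  have hu : IsUnit (b m) := Polynomial.isUnit_iff_degree_eq_zero.2 hdeg
  rw [hzz m, hy m]
  exact mul_dvd_mul_left _ (hu.dvd)

theorem eval_reflect {f : Polynomial ℂ} {n : ℕ} (hf : f.natDegree ≤ n) {w : ℂ} (hw : w ≠ 0) :
    (Polynomial.reflect n f).eval w = w ^ n * f.eval w⁻¹ := by
  let _ : Invertible w⁻¹ := invertibleOfNonzero (inv_ne_zero hw)
  have h1 := Polynomial.eval₂_reflect_mul_pow (RingHom.id ℂ) w⁻¹ n f hf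
  have h2 : (⅟(w⁻¹) : ℂ) = w := by
    rw [invOf_eq_inv, inv_inv]
  rw [h2] at h1
  change (Polynomial.reflect n f).eval w * w⁻¹ ^ n = f.eval w⁻¹ at h1
  rw [← h1, inv_pow]
  field_simp

/-- no pole at infinity either -/
theorem const_of_reflect {y z α β : Polynomial ℂ} {n : ℕ} (hy : y.natDegree ≤ n)
    (hzn : z.natDegree ≤ n) (hz : z ≠ 0) (h1 : y = z * α)
    (h2 : Polynomial.reflect n y = Polynomial.reflect n z * β) : ∃ c, α = Polynomial.C c := by
  by_cases hα : α.natDegree = 0
  · exact ⟨_, Polynomial.eq_C_of_natDegree_eq_zero hα⟩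
  exfalso
  have hrz : Polynomial.reflect n z ≠ 0 := by
    rwa [Ne, Polynomial.reflect_eq_zero_iff]
  have h3 : (Polynomial.reflect α.natDegree α - Polynomial.X ^ α.natDegree * β) *
      Polynomial.reflect n z = 0 := by
    apply Pool.Agent.Q183.RS.poly_ext_ne
    intro w hw
    have h4 := congrArg (Polynomial.eval w) h2
    rw [Polynomial.eval_mul, eval_reflect hy hw, eval_reflect hzn hw] at h4
    rw [Polynomial.eval_mul, Polynomial.eval_sub, Polynomial.eval_mul, Polynomial.eval_pow,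
      Polynomial.eval_X, Polynomial.eval_zero, eval_reflect le_rfl hw, eval_reflect hzn hw]
    have h5 := congrArg (Polynomial.eval w⁻¹) h1
    rw [Polynomial.eval_mul] at h5
    rw [h5] at h4
    linear_combination w ^ α.natDegree * h4
  have h4 := (mul_eq_zero.1 h3).resolve_right hrz
  have h5 := congrArg (Polynomial.eval 0) h4
  rw [Polynomial.eval_sub, Polynomial.eval_mul, Polynomial.eval_pow, Polynomial.eval_X,
    zero_pow hα, zero_mul, sub_zero, Polynomial.eval_zero, ← Polynomial.coeff_zero_eq_eval_zero,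
    Polynomial.coeff_reflect, Polynomial.revAt_le (Nat.zero_le _), Nat.sub_zero] at h5
  have h6 : α = 0 := Polynomial.leadingCoeff_eq_zero.1 h5
  rw [h6] at hα
  exact hα Polynomial.natDegree_zero

/-- **Henon maps.** -/
theorem nm_henon {κ : Type} [Fintype κ] {L : Type} [Field L] [Algebra L ℂ] {F : κ → Polynomial L}
    (hF : ∀ k, 2 ≤ (F k).natDegree) (δ : κ → L) :
    NM (fun k => hen (F k) (δ k)) {(X 2 : MvPolynomial (Fin (2 + 1)) L)} := by
  classical
  intro p D hp hD hG hS
  have hz : ∀ m, p m 2 ≠ 0 := by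
    intro m h0
    refine hG m _ rfl ?_
    rw [aeval_X, h0]
  -- the reversed curves
  let p' : ℕ → Fin (2 + 1) → Polynomial ℂ := fun m j => Polynomial.reflect D (p m j)
  have hp'ev : ∀ m (w : ℂ), w ≠ 0 → (fun j => (p' m j).eval w) =
      fun j => w ^ D * (p m j).eval w⁻¹ := fun m w hw => funext fun j => eval_reflect (hD m j) hw
  have hS' : ∀ m, Step (fun k => hen (F k) (δ k)) (p' m) (p' (m + 1)) := by
    intro m
    rw [step_iff]
    intro c
    apply Pool.Agent.Q183.RS.poly_ext_ne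
    intro w hw
    have h1 : Step (fun k => hen (F k) (δ k)) (fun j => (p m j).eval w⁻¹)
        (fun j => (p (m + 1) j).eval w⁻¹) := by
      rw [step_iff]
      intro c
      have h2 := congrArg (Polynomial.eval w⁻¹) ((step_iff _ _ _).1 (hS m) c)
      rw [aeval_evalσ, Polynomial.eval_zero] at h2
      rw [← h2]
      congr 2
      funext q
      rcases q with j | j <;> rfl
    have h3 := h1.smul (fun k => ⟨_, hen_homog (hF k) (δ k)⟩) (w ^ D) (w ^ D)
    rw [← hp'ev m w hw, ← hp'ev (m + 1) w hw, step_iff] at h3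
    rw [aeval_evalσ, Polynomial.eval_zero, ← h3 c]
    congr 2
    funext q
    rcases q with j | j <;> rfl
  have hD' : ∀ m i, (p' m i).natDegree ≤ D := by
    intro m i
    refine Polynomial.natDegree_le_iff_coeff_eq_zero.2 fun n hn => ?_
    change (Polynomial.reflect D (p m i)).coeff n = 0
    rw [Polynomial.coeff_reflect, Polynomial.revAt_eq_self_of_lt hn]
    exact Polynomial.coeff_eq_zero_of_natDegree_lt (lt_of_le_of_lt (hD m i) hn)
  have hz' : ∀ m, p' m 2 ≠ 0 := by
    intro m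
    change Polynomial.reflect D (p m 2) ≠ 0
    rw [Ne, Polynomial.reflect_eq_zero_iff]
    exact hz m
  have hc : ∀ m, D + 1 ≤ m → ∃ c, p m 1 = p m 2 * Polynomial.C c := by
    intro m hm
    obtain ⟨α, hα⟩ := hen_dvd hF hD hz hS m hm
    obtain ⟨β, hβ⟩ := hen_dvd hF hD' hz' hS' m hm
    obtain ⟨c, hc⟩ := const_of_reflect (hD m 1) (hD m 2) (hz m) hα hβ
    exact ⟨c, by rw [hα, hc]⟩
  refine ⟨D + 2, fun m hm => ?_⟩
  obtain ⟨n, rfl⟩ := Nat.exists_eq_add_of_le (show 1 ≤ m by omega)
  obtain ⟨c0, hc0⟩ := hc n (by omega)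
  obtain ⟨c1, hc1⟩ := hc (1 + n) (by omega)
  obtain ⟨k, hk⟩ := hS n
  obtain ⟨h1, -⟩ := hen_step (hF k) (hz n) hk
  rw [add_comm n 1] at h1
  have h2 : p (1 + n) 0 = p (1 + n) 2 * Polynomial.C c0 := by
    apply mul_right_cancel₀ (hz n)
    rw [h1, hc0]
    ring
  have h3 : ∀ j, ∃ c, p (1 + n) j = p (1 + n) 2 * Polynomial.C c := by
    intro j
    fin_cases j
    · exact ⟨c0, h2⟩
    · exact ⟨c1, hc1⟩
    · exact ⟨1, by simp⟩
  choose c hc' using h3
  unfold NonConst
  push Not
  intro i j u v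
  rw [hc' i, hc' j]
  simp only [Polynomial.eval_mul, Polynomial.eval_C]
  ring

end Pool.Agent.Q183.UD
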