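import Pool.Agent.Q183.UD.Henon

/-!
Finite recurrent orbits of Henon maps.
-/

set_option autoImplicit false

namespace Pool.Agent.Q183.UD

open MvPolynomial Filter Pool.Agent.Q183.UH Cardinal Pool.Agent.Q183.RS

/-- the property of the finite recurrent orbits over `K` -/
def HenOn (K : Type) [Field K] (s R d : ℕ) (D : Fin s → ℕ) (M C : ℕ) : Prop :=
  ∀ (F : Fin s → Polynomial K) (δ : Fin s → K), (∀ k, (F k).natDegree = D k) →
    ∀ (L : ℕ) (x : ℕ → Fin (2 + 1) → K), (∀ m, m < L → x m 2 ≠ 0) →
    (∀ m, m + 1 < L → Step (fun k => hen (F k) (δ k)) (x m) (x (m + 1))) →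
    (∀ j, RegRec R d L fun m => x m j) →
    ∀ t, C ≤ t → t + M + C ≤ L → Par (x t) (x (t + M))

section

variable {K : ℕ → Type} [∀ n, Field (K n)] {U : Ultrafilter ℕ}

theorem mk_hom2 {F : ∀ n, Polynomial (K n)} {A : Polynomial (∀ n, K n)}
    (hA : ∀ n, A.map (ev K n) = F n) (D : ℕ) (y z : ∀ n, K n) :
    mk K U (fun n => hom2 (F n) D (y n) (z n)) =
      hom2 (A.map (mk K U)) D (mk K U y) (mk K U z) := by
  have hc : ∀ i, (fun n => (F n).coeff i) = A.coeff i := by
    intro i
    funext n
    rw [← hA n, Polynomial.coeff_map]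
    rfl
  have h1 : (fun n => hom2 (F n) D (y n) (z n)) =
      ∑ i ∈ Finset.range (D + 1), A.coeff i * y ^ i * z ^ (D - i) := by
    funext n
    unfold hom2
    rw [Finset.sum_apply]
    refine Finset.sum_congr rfl fun i _ => ?_
    rw [← hc i]
    rfl
  rw [h1, map_sum]
  unfold hom2
  refine Finset.sum_congr rfl fun i _ => ?_
  rw [map_mul, map_mul, map_pow, map_pow, Polynomial.coeff_map]
  rfl

theorem mk_hen {F : ∀ n, Polynomial (K n)} {A : Polynomial (∀ n, K n)}
    (hA : ∀ n, A.map (ev K n) = F n) {D : ℕ} (hD : ∀ n, (F n).natDegree = D)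
    (hDU : (A.map (mk K U)).natDegree = D) (δ : ∀ n, K n)
    (x : ∀ n, ℕ → Fin (2 + 1) → K n) (t : ℕ → ℕ) (j : Fin (2 + 1)) :
    aeval (XX U x t) (hen (A.map (mk K U)) (mk K U δ) j) =
      mk K U fun n => aeval (x n (t n)) (hen (F n) (δ n) j) := by
  fin_cases j
  · have h1 : (fun n => aeval (x n (t n)) (hen (F n) (δ n) 0)) =
        (fun n => x n (t n) 1) * (fun n => x n (t n) 2) ^ (D - 1) := by
      funext n
      rw [aeval_hen0, hD n]
      rfl
    change aeval (XX U x t) (hen (A.map (mk K U)) (mk K U δ) 0) =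
      mk K U fun n => aeval (x n (t n)) (hen (F n) (δ n) 0)
    rw [h1, aeval_hen0, hDU, map_mul, map_pow]
    rfl
  · have h1 : (fun n => aeval (x n (t n)) (hen (F n) (δ n) 1)) =
        (fun n => hom2 (F n) D (x n (t n) 1) (x n (t n) 2)) -
          δ * (fun n => x n (t n) 0) * (fun n => x n (t n) 2) ^ (D - 1) := by
      funext n
      rw [aeval_hen1, hD n]
      rfl
    change aeval (XX U x t) (hen (A.map (mk K U)) (mk K U δ) 1) =
      mk K U fun n => aeval (x n (t n)) (hen (F n) (δ n) 1)
    rw [h1, aeval_hen1, hDU, map_sub, map_mul, map_mul, map_pow,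
      mk_hom2 hA D (fun n => x n (t n) 1) (fun n => x n (t n) 2)]
    rfl
  · have h1 : (fun n => aeval (x n (t n)) (hen (F n) (δ n) 2)) =
        (fun n => x n (t n) 2) ^ D := by
      funext n
      rw [aeval_hen2, hD n]
      rfl
    change aeval (XX U x t) (hen (A.map (mk K U)) (mk K U δ) 2) =
      mk K U fun n => aeval (x n (t n)) (hen (F n) (δ n) 2)
    rw [h1, aeval_hen2, hDU, map_pow]
    rfl

end

theorem hen_core (s R d : ℕ) (D : Fin s → ℕ) (hD2 : ∀ k, 2 ≤ D k) :
    ∃ M C : ℕ, 0 < M ∧ ∀ (K : Type) [Field K] [CharZero K], #K ≤ 𝔠 → HenOn K s R d D M C := by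
  classical
  by_contra hcon
  push Not at hcon
  choose K i1 i2 hK hbad using fun n : ℕ => hcon n.factorial n n.factorial_pos
  unfold HenOn at hbad
  push Not at hbad
  choose F δ hFD L x hz hS hrec T hT1 hT2 hT3 using hbad
  let U : Ultrafilter ℕ := hyperfilter ℕ
  have hU : (U : Filter ℕ) ≤ atTop := Nat.hyperfilter_le_atTop
  have hne : ∀ n m, m < L n → x n m ≠ 0 := by
    intro n m hm h0
    exact hz n m hm (congrFun h0 2)
  have hL0 : 0 < L 0 := by
    have := hT2 0
    have h2 := Nat.factorial_pos 0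
    omega
  refine contraF (K := K) (RegRec.pos hL0 (hne 0 0 hL0) (hrec 0)) (U := U) hU x L hne hrec
    (fun n t => False) (fun n t t' ht ht' h1 h2 => h2) T hT1 hT2 (fun n h => by
      unfold GoodZ at h
      rcases h with h | h
      · exact h.1
      · exact hT3 n (Par.symm h)) fun hrecU hneU hbigL => ?_
  choose A hA using fun k => exists_lift (D k) (fun n => F n k) fun n => (hFD n k).le
  have hAdeg : ∀ k, ((A k).map (mk K U)).natDegree = D k := by
    intro k
    have hcoef : ∀ i, (A k).coeff i = fun n => (F n k).coeff i := by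
      intro i
      funext n
      rw [← hA k n, Polynomial.coeff_map]
      rfl
    apply le_antisymm
    · rw [Polynomial.natDegree_le_iff_coeff_eq_zero]
      intro i hi
      rw [Polynomial.coeff_map, hcoef i, mk_zero]
      refine Eventually.of_forall fun n => ?_
      exact Polynomial.coeff_eq_zero_of_natDegree_lt (by rw [hFD n k]; exact hi)
    · apply Polynomial.le_natDegree_of_ne_zero
      rw [Polynomial.coeff_map, hcoef, mk_ne]
      refine Eventually.of_forall fun n => ?_
      rw [← hFD n k]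
      refine Polynomial.leadingCoeff_ne_zero.2 fun h0 => ?_
      have h1 := hFD n k
      rw [h0, Polynomial.natDegree_zero] at h1
      have h2 := hD2 k
      omega
  obtain ⟨φ⟩ := exists_emb (UK K U) (card_le hK)
  let _ : Algebra (UK K U) ℂ := φ.toAlgebra
  have hFU : ∀ k, 2 ≤ ((A k).map (mk K U)).natDegree := fun k => by
    rw [hAdeg k]
    exact hD2 k
  obtain ⟨M, i0, hM, hper⟩ := dyn_window
    (f := fun k => hen ((A k).map (mk K U)) (mk K U fun n => δ n k))
    (fun k => ⟨_, hen_homog (hFU k) _⟩) (GG := {(X 2 : MvPolynomial (Fin (2 + 1)) (UK K U))})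
    (fun G hG => ⟨1, by rw [Set.mem_singleton_iff.1 hG]; exact isHomogeneous_X _ _⟩)
    (nm_henon hFU _) (y := fun i => XX U x fun _ => i) hneU hrecU
    (fun m G hG => by
      rw [Set.mem_singleton_iff.1 hG, eval_X]
      change mk K U (fun n => x n m 2) ≠ 0
      rw [mk_ne]
      filter_upwards [hbigL m] with n hn
      exact hz n m hn) (fun m => by
      have h1 : ∀ᶠ n in (U : Filter ℕ), ∃ k : Fin s, ∀ i j,
          x n (m + 1) i * aeval (x n m) (hen (F n k) (δ n k) j) =
            x n (m + 1) j * aeval (x n m) (hen (F n k) (δ n k) i) := by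
        filter_upwards [hbigL (m + 1)] with n hn
        exact hS n m hn
      obtain ⟨k, hk⟩ := Ultrafilter.eventually_exists_iff.1 h1
      refine ⟨k, fun i j => ?_⟩
      rw [mk_hen (hA k) (fun n => hFD n k) (hAdeg k), mk_hen (hA k) (fun n => hFD n k) (hAdeg k)]
      change mk K U (fun n => x n (m + 1) i) * _ = mk K U (fun n => x n (m + 1) j) * _
      rw [← map_mul, ← map_mul, mk_eq]
      filter_upwards [hk] with n hn
      exact hn i j)
  refine ⟨1, fun _ => 0, fun n _ => 1, M, i0, hM, fun n _ => isHomogeneous_one _ _, fun i hi => ?_,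
    Eventually.of_forall fun n t _ ht => ?_⟩
  · have h1 := XX_par.1 (hper i hi)
    filter_upwards [h1] with n hn
    exact Or.inr hn.symm
  · have h1 := ht 0
    rw [map_one] at h1
    exact one_ne_zero h1

end Pool.Agent.Q183.UD
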