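import Pool.Agent.Q183.UD.Henon2

/-!
Finite recurrent orbits of Henon maps over all fields of characteristic zero.
-/

set_option autoImplicit false

namespace Pool.Agent.Q183.UD

open MvPolynomial Filter Pool.Agent.Q183.UH Cardinal Pool.Agent.Q183.RS

theorem hom2_base {A L : Type} [Field A] [Field L] (ψ : A →+* L) (F : Polynomial A) (D : ℕ)
    (y z : A) : ψ (hom2 F D y z) = hom2 (F.map ψ) D (ψ y) (ψ z) := by
  unfold hom2
  rw [map_sum]
  refine Finset.sum_congr rfl fun i _ => ?_
  rw [map_mul, map_mul, map_pow, map_pow, Polynomial.coeff_map]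
  rfl

theorem hen_base {A L : Type} [Field A] [Field L] (ψ : A →+* L) (F : Polynomial A) (δ : A)
    (v : Fin (2 + 1) → A) (j : Fin (2 + 1)) :
    ψ (aeval v (hen F δ j)) = aeval (fun i => ψ (v i)) (hen (F.map ψ) (ψ δ) j) := by
  fin_cases j
  · change ψ (aeval v (hen F δ 0)) = aeval (fun i => ψ (v i)) (hen (F.map ψ) (ψ δ) 0)
    rw [aeval_hen0, aeval_hen0, Polynomial.natDegree_map, map_mul, map_pow]
  · change ψ (aeval v (hen F δ 1)) = aeval (fun i => ψ (v i)) (hen (F.map ψ) (ψ δ) 1)
    rw [aeval_hen1, aeval_hen1, Polynomial.natDegree_map, map_sub, map_mul, map_mul, map_pow,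
      hom2_base]
    rfl
  · change ψ (aeval v (hen F δ 2)) = aeval (fun i => ψ (v i)) (hen (F.map ψ) (ψ δ) 2)
    rw [aeval_hen2, aeval_hen2, Polynomial.natDegree_map, map_pow]

/-- **Finite recurrent orbits of Henon maps.** -/
theorem hen_final (s D R d : ℕ) : ∃ M C : ℕ, 0 < M ∧
    ∀ (K : Type) [Field K] [CharZero K] (F : Fin s → Polynomial K) (δ : Fin s → K),
    (∀ k, 2 ≤ (F k).natDegree ∧ (F k).natDegree ≤ D) →
    ∀ (l : ℕ) (x : ℕ → Fin (2 + 1) → K), (∀ m, m < l → x m 2 ≠ 0) →
    (∀ m, m + 1 < l → Step (fun k => hen (F k) (δ k)) (x m) (x (m + 1))) →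
    (∀ j, RegRec R d l fun m => x m j) →
    ∀ t, C ≤ t → t + M + C ≤ l → Par (x t) (x (t + M)) := by
  classical
  choose M C hM hB using fun e : Fin s → Fin (D + 1) =>
    hen_core s R d (fun k => max 2 (e k : ℕ)) fun k => le_max_left _ _
  refine ⟨∏ e, M e, (∑ e, C e) + 1, Finset.prod_pos fun e _ => hM e,
    fun L _ _ F δ hF l x hz hS hrec t ht1 ht2 => ?_⟩
  let e' : Fin s → Fin (D + 1) := fun k => ⟨(F k).natDegree, by have := (hF k).2; omega⟩
  have hmax : ∀ k, max 2 ((e' k : Fin (D + 1)) : ℕ) = (F k).natDegree := fun k =>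
    max_eq_right (hF k).1
  have hne : ∀ m, m < l → x m ≠ 0 := fun m hm h0 => hz m hm (congrFun h0 2)
  have hrec' := hrec
  choose a had ha hreg using hrec'
  let T : Set L := (Set.range fun p : Fin s × ℕ => (F p.1).coeff p.2) ∪ ((Set.range δ) ∪
    ((Set.range fun p : ℕ × Fin (2 + 1) => x p.1 p.2) ∪
      Set.range fun p : Fin (2 + 1) × ℕ × ℕ => (a p.1 p.2.1).coeff p.2.2))
  have hT : T.Countable := (Set.countable_range _).union ((Set.countable_range _).union
    ((Set.countable_range _).union (Set.countable_range _)))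
  let A := Subfield.closure T
  have hA : #A ≤ 𝔠 := by
    have h1 : #A ≤ ℵ₀ := (Subfield.cardinalMk_closure_le_max T).trans
      (max_le (Cardinal.le_aleph0_iff_set_countable.2 hT) le_rfl)
    exact h1.trans aleph0_le_continuum
  let ψ : A →+* L := A.subtype
  have hTr : ∀ z ∈ T, z ∈ ψ.range := fun z hz => ⟨⟨z, Subfield.subset_closure hz⟩, rfl⟩
  have hFl : ∀ k, ∃ q : Polynomial A, q.map ψ = F k := by
    intro k
    have h1 : F k ∈ Polynomial.lifts ψ := by
      rw [Polynomial.lifts_iff_coeff_lifts]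
      exact fun c => hTr _ (Or.inl ⟨(k, c), rfl⟩)
    exact h1
  choose F' hF' using hFl
  choose δ' hδ' using fun k => hTr _ (Or.inr (Or.inl ⟨k, rfl⟩) : δ k ∈ T)
  choose x' hx' using fun m j => hTr _ (Or.inr (Or.inr (Or.inl ⟨(m, j), rfl⟩)) : x m j ∈ T)
  have hev : ∀ m k j, ψ (aeval (x' m) (hen (F' k) (δ' k) j)) = aeval (x m) (hen (F k) (δ k) j) := by
    intro m k j
    rw [hen_base, hF', hδ']
    congr 2
    exact funext fun i => hx' m i
  have hstep : ∀ t, C e' ≤ t → t + M e' + C e' ≤ l → Par (x t) (x (t + M e')) := by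
    intro t h1 h2
    have key := hB e' A hA F' δ' (fun k => by
      change (F' k).natDegree = max 2 ((e' k : Fin (D + 1)) : ℕ)
      rw [hmax, ← hF' k, Polynomial.natDegree_map]) l x' (fun m hm h0 => hz m hm (by
      rw [← hx', h0, map_zero])) (fun m hm => by
      obtain ⟨k, hk⟩ := hS m hm
      refine ⟨k, fun i j => ψ.injective ?_⟩
      rw [map_mul, map_mul, hx', hx', hev, hev]
      exact hk i j) (fun j => regRec_lift ψ (fun m => hx' m j) (had j) (ha j) (hreg j)
        fun k c => hTr _ (Or.inr (Or.inr (Or.inr ⟨(j, k, c), rfl⟩)))) t h1 h2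
    intro i j
    rw [← hx', ← hx', ← hx', ← hx', ← map_mul, ← map_mul, key i j]
  obtain ⟨k, hk⟩ : M e' ∣ ∏ e, M e := Finset.dvd_prod_of_mem _ (Finset.mem_univ _)
  have hC : C e' ≤ ∑ e, C e := Finset.single_le_sum (f := C) (fun _ _ => Nat.zero_le _)
    (Finset.mem_univ e')
  rw [hk] at ht2 ⊢
  refine par_chain hne k (by omega) fun i hi => hstep _ (by omega) ?_
  have h4 : M e' * i + M e' ≤ M e' * k := by
    calc M e' * i + M e' = M e' * (i + 1) := by ring
      _ ≤ _ := Nat.mul_le_mul_left _ (by omega)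
  omega

/-! ### points of the plane -/

/-- the Henon map `(x, y) ↦ (y, F y - δ x)` -/
def henon {K : Type} [Field K] (F : Polynomial K) (δ : K) (P : K × K) : K × K :=
  (P.2, F.eval P.2 - δ * P.1)

/-- The points `P 0, ..., P (l - 1)` of the plane have homogeneous coordinates `(X : Y : Z)` each of
which satisfies a linear recurrence of order at most `R` whose coefficients are polynomials of degree
at most `d` in the index, such that the first and the last coefficient do not vanish at the indices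
at which the recurrence holds. -/
def RecurrentPlane {K : Type} [Field K] (R d l : ℕ) (P : ℕ → K × K) : Prop :=
  ∃ x : ℕ → Fin (2 + 1) → K, (∀ m, m < l → x m 2 ≠ 0 ∧ P m = (x m 0 / x m 2, x m 1 / x m 2)) ∧
    ∀ j, FinRec R d l fun m => x m j

theorem hom2_eval {K : Type} [Field K] (F : Polynomial K) {y z : K} (hz : z ≠ 0) :
    hom2 F F.natDegree y z = z ^ F.natDegree * F.eval (y / z) := by
  unfold hom2
  rw [Polynomial.eval_eq_sum_range, Finset.mul_sum]
  refine Finset.sum_congr rfl fun i hi => ?_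
  have h1 : i + (F.natDegree - i) = F.natDegree := by
    have := Finset.mem_range.1 hi
    omega
  have h2 : z ^ F.natDegree = z ^ i * z ^ (F.natDegree - i) := by rw [← pow_add, h1]
  rw [h2, div_pow]
  change F.coeff i * y ^ i * z ^ (F.natDegree - i) = _
  field_simp

theorem hen_points (s D : ℕ) : ∃ M C : ℕ → ℕ → ℕ, (∀ R d, 0 < M R d) ∧
    ∀ (K : Type) [Field K] [CharZero K] (F : Fin s → Polynomial K) (δ : Fin s → K),
    (∀ k, 2 ≤ (F k).natDegree ∧ (F k).natDegree ≤ D) →
    ∀ (R d l : ℕ) (P : ℕ → K × K), (∀ t, t + 1 < l → ∃ k, P (t + 1) = henon (F k) (δ k) (P t)) →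
    RecurrentPlane R d l P → ∀ t, C R d ≤ t → t + M R d + C R d ≤ l → P (t + M R d) = P t := by
  classical
  choose M C hM hB using fun R d => hen_final s D R d
  refine ⟨M, fun R d => C R d + R, hM, fun K _ _ F δ hF R d l P hS hP t ht1 ht2 => ?_⟩
  obtain ⟨x, hP, hrec⟩ := hP
  change C R d + R ≤ t at ht1
  change t + M R d + (C R d + R) ≤ l at ht2
  have hMR := hM R d
  have h3 := hB R d K F δ hF (l - R) x (fun m hm => (hP m (by omega)).1) (fun m hm => by
    obtain ⟨n1, e1⟩ := hP m (by omega)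
    obtain ⟨n2, e2⟩ := hP (m + 1) (by omega)
    obtain ⟨k, hk⟩ := hS m (by omega)
    rw [e1, e2] at hk
    unfold henon at hk
    rw [Prod.mk.injEq] at hk
    obtain ⟨h1, h2⟩ := hk
    simp only at h1 h2
    set D0 := (F k).natDegree with hD0
    have hD1 : D0 = (D0 - 1) + 1 := by have := (hF k).1; omega
    have a0 : x (m + 1) 0 = x (m + 1) 2 / x m 2 ^ D0 * aeval (x m) (hen (F k) (δ k) 0) := by
      rw [aeval_hen0, ← hD0]
      rw [div_eq_iff n2] at h1
      rw [h1, hD1, Nat.add_sub_cancel, pow_succ]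
      field_simp
    have a1 : x (m + 1) 1 = x (m + 1) 2 / x m 2 ^ D0 * aeval (x m) (hen (F k) (δ k) 1) := by
      rw [aeval_hen1, hom2_eval _ n1, ← hD0]
      rw [div_eq_iff n2] at h2
      rw [h2, hD1, Nat.add_sub_cancel, pow_succ]
      change _ = x (m + 1) 2 / (x m 2 ^ (D0 - 1) * x m 2) *
        (x m 2 ^ (D0 - 1) * x m 2 * Polynomial.eval (x m 1 / x m 2) (F k) -
          δ k * x m 0 * x m 2 ^ (D0 - 1))
      field_simp
    have a2 : x (m + 1) 2 = x (m + 1) 2 / x m 2 ^ D0 * aeval (x m) (hen (F k) (δ k) 2) := by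
      rw [aeval_hen2, ← hD0]
      field_simp
    have hall : ∀ j, x (m + 1) j = x (m + 1) 2 / x m 2 ^ D0 * aeval (x m) (hen (F k) (δ k) j) := by
      intro j
      fin_cases j
      · exact a0
      · exact a1
      · exact a2
    refine ⟨k, fun i j => ?_⟩
    rw [hall i, hall j]
    ring) (fun j => (hrec j).reg) t (by omega) (by omega)
  obtain ⟨n1, e1⟩ := hP t (by omega)
  by_cases hC : t + M R d < l
  · obtain ⟨n2, e2⟩ := hP (t + M R d) hC
    rw [e1, e2, Prod.mk.injEq]
    constructor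
    · rw [div_eq_div_iff n2 n1]
      have h4 := h3 0 2
      linear_combination -h4
    · rw [div_eq_div_iff n2 n1]
      have h4 := h3 1 2
      linear_combination -h4
  · exfalso
    have hR0 : R = 0 := by omega
    subst hR0
    apply (hP t (by omega)).1
    obtain ⟨q, a, hq, -, ha⟩ := hrec 2
    have hq0 : q = 0 := by omega
    subst hq0
    have h5 := ha t (by omega)
    simp only [Finset.sum_range_succ, Finset.sum_range_zero, zero_add, Nat.add_zero] at h5
    exact (mul_eq_zero.1 h5.2.2).resolve_left h5.1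

end Pool.Agent.Q183.UD
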