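import Pool.Agent.Q183.UD.Final

/-!
The projective line: the number of points with recurrent orbits.
-/

set_option autoImplicit false

namespace Pool.Agent.Q183.UD

open MvPolynomial Filter Pool.Agent.Q183.UH
open scoped LinearAlgebra.Projectivization

variable {N : ℕ}

/-- upper bound for the degree -/
theorem natDegree_aeval_le {k K : Type} [Field k] [Field K] [Algebra k K]
    {F : MvPolynomial (Fin (N + 1)) k} {e : ℕ} (hF : F.IsHomogeneous e)
    {q : Fin (N + 1) → Polynomial K} {H : ℕ} (hq : ∀ i, (q i).natDegree ≤ H) :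
    (aeval q F : Polynomial K).natDegree ≤ e * H := by
  classical
  rw [aeval_def, eval₂_eq']
  refine Polynomial.natDegree_sum_le_of_forall_le _ _ fun d hd => ?_
  have h1 : ∑ i, d i = e := by
    have h2 := hF (mem_support_iff.1 hd)
    rw [← h2, Finsupp.weight_apply, Finsupp.sum_fintype _ _ (fun i => by simp)]
    simp
  have h3 := (coeff_prod_top Finset.univ q (fun i => d i) hq).1
  rw [h1] at h3
  rw [Polynomial.algebraMap_apply]
  exact (Polynomial.natDegree_C_mul_le _ _).trans h3

/-- primitive vectors which are proportional have the same degrees -/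
theorem sup_natDegree_eq {K : Type} [Field K] {q w h h' : Fin (N + 1) → Polynomial K}
    (hh : ∑ i, h i * q i = 1) (hh' : ∑ i, h' i * w i = 1) (hpar : ∀ i j, w i * q j = w j * q i) :
    Finset.univ.sup (fun i => (q i).natDegree) ≤ Finset.univ.sup fun i => (w i).natDegree := by
  classical
  have h1 : ∀ i, w i = (∑ j, h j * w j) * q i := by
    intro i
    calc w i = w i * ∑ j, h j * q j := by rw [hh, mul_one]
      _ = ∑ j, h j * (w i * q j) := by
          rw [Finset.mul_sum]
          exact Finset.sum_congr rfl fun j _ => by ring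
      _ = ∑ j, h j * (w j * q i) := Finset.sum_congr rfl fun j _ => by rw [hpar]
      _ = _ := by
          rw [Finset.sum_mul]
          exact Finset.sum_congr rfl fun j _ => by ring
  have h2 : (∑ j, h j * w j) ≠ 0 := by
    intro h0
    rw [Finset.sum_congr rfl fun i _ => by rw [h1 i, h0, zero_mul, mul_zero],
      Finset.sum_const_zero] at hh'
    exact zero_ne_one hh'
  refine Finset.sup_le fun i _ => ?_
  refine le_trans ?_ (Finset.le_sup (f := fun i => (w i).natDegree) (Finset.mem_univ i))
  by_cases h0 : q i = 0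
  · rw [h0, Polynomial.natDegree_zero]
    exact Nat.zero_le _
  · rw [h1 i, Polynomial.natDegree_mul h2 h0]
    omega

/-- the curve of the iterates along a word -/
noncomputable def icur {s : ℕ} {K : Type} [Field K] (E : Type) [Field E] [Algebra K E]
    (f : Fin s → Fin 2 → MvPolynomial (Fin 2) K) (w : ℕ → Fin s) : ℕ → Fin 2 → Polynomial E
  | 0 => ![Polynomial.X, 1]
  | n + 1 => fun j => aeval (icur E f w n) (f (w n) j)

/-- the orbit along a word -/
noncomputable def worb {s D : ℕ} {K : Type} [Field K]
    {f : Fin s → Fin (N + 1) → MvPolynomial (Fin (N + 1)) K} (hf : ∀ k, IsMor D (f k))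
    (w : ℕ → Fin s) (Q : ℙ K (Fin (N + 1) → K)) : ℕ → ℙ K (Fin (N + 1) → K)
  | 0 => Q
  | n + 1 => pmap (hf (w n)) (worb hf w Q n)

section

variable {s D : ℕ} {K : Type} [Field K] {f : Fin s → Fin 2 → MvPolynomial (Fin 2) K}

theorem icur_deg (E : Type) [Field E] [Algebra K E] (hf : ∀ k, IsMor D (f k)) (w : ℕ → Fin s)
    (n : ℕ) (j : Fin 2) : (icur E f w n j).natDegree ≤ D ^ n := by
  induction n generalizing j with
  | zero =>
    rw [pow_zero]
    fin_cases j
    · change (Polynomial.X : Polynomial E).natDegree ≤ 1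
      exact Polynomial.natDegree_X_le
    · change (1 : Polynomial E).natDegree ≤ 1
      simp
  | succ n ih =>
    obtain ⟨e, _, he, h3, _⟩ := hf (w n)
    refine (natDegree_aeval_le (h3 j) ih).trans ?_
    rw [pow_succ, mul_comm]
    exact Nat.mul_le_mul_left _ he

theorem icur_prim (E : Type) [Field E] [Algebra K E] [IsAlgClosed E] (hf : ∀ k, IsMor D (f k))
    (w : ℕ → Fin s) (n : ℕ) : ∃ h : Fin 2 → Polynomial E, ∑ i, h i * icur E f w n i = 1 := by
  induction n with
  | zero => exact ⟨![0, 1], by simp [icur]⟩
  | succ n ih =>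
    obtain ⟨h, hh⟩ := ih
    obtain ⟨e, _, _, _, h4⟩ := hf (w n)
    exact unit_values (null_up h4) hh

theorem icur_grow (E : Type) [Field E] [Algebra K E] [IsAlgClosed E] (hf : ∀ k, IsMor D (f k))
    (w : ℕ → Fin s) (n i : ℕ) :
    2 ^ i * Finset.univ.sup (fun j => (icur E f w n j).natDegree) ≤
      Finset.univ.sup fun j => (icur E f w (n + i) j).natDegree := by
  induction i with
  | zero => simp
  | succ i ih =>
    obtain ⟨h, hh⟩ := icur_prim E hf w (n + i)
    obtain ⟨h', hh'⟩ := icur_prim E hf w (n + i + 1)
    obtain ⟨e, he, _, h3, h4⟩ := hf (w (n + i))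
    have h5 := degree_image h3 (null_up h4) hh (w := icur E f w (n + i + 1)) (by
      intro h0
      rw [h0] at hh'
      simp at hh') (fun i j => by
      change aeval _ _ * _ = aeval _ _ * _
      ring)
    calc 2 ^ (i + 1) * Finset.univ.sup (fun j => (icur E f w n j).natDegree) =
        2 * (2 ^ i * Finset.univ.sup fun j => (icur E f w n j).natDegree) := by ring
      _ ≤ e * Finset.univ.sup fun j => (icur E f w (n + i) j).natDegree := Nat.mul_le_mul he ih
      _ ≤ _ := h5

theorem icur_sup_pos (E : Type) [Field E] [Algebra K E] [IsAlgClosed E] (hf : ∀ k, IsMor D (f k))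
    (w : ℕ → Fin s) (n : ℕ) : 1 ≤ Finset.univ.sup fun j => (icur E f w n j).natDegree := by
  have h1 := icur_grow E hf w 0 n
  rw [zero_add] at h1
  have h2 : 1 ≤ Finset.univ.sup fun j => (icur E f w 0 j).natDegree := by
    refine le_trans ?_ (Finset.le_sup (f := fun j => (icur E f w 0 j).natDegree)
      (Finset.mem_univ 0))
    change 1 ≤ (Polynomial.X : Polynomial E).natDegree
    rw [Polynomial.natDegree_X]
  have h3 : 1 ≤ 2 ^ n := Nat.one_le_two_pow
  nlinarith

/-- the iterates of different lengths are different maps -/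
theorem icur_ne (E : Type) [Field E] [Algebra K E] [IsAlgClosed E] (hf : ∀ k, IsMor D (f k))
    (w : ℕ → Fin s) (n : ℕ) {i : ℕ} (hi : 0 < i) :
    icur E f w (n + i) 0 * icur E f w n 1 - icur E f w (n + i) 1 * icur E f w n 0 ≠ 0 := by
  intro h0
  obtain ⟨h, hh⟩ := icur_prim E hf w n
  obtain ⟨h', hh'⟩ := icur_prim E hf w (n + i)
  have h1 : ∀ a b : Fin 2, icur E f w n a * icur E f w (n + i) b =
      icur E f w n b * icur E f w (n + i) a := by
    intro a b
    fin_cases a <;> fin_cases b
    · rfl
    · change icur E f w n 0 * icur E f w (n + i) 1 = icur E f w n 1 * icur E f w (n + i) 0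
      linear_combination -h0
    · change icur E f w n 1 * icur E f w (n + i) 0 = icur E f w n 0 * icur E f w (n + i) 1
      linear_combination h0
    · rfl
  have h2 := sup_natDegree_eq hh' hh h1
  have h3 := icur_grow E hf w n i
  have h4 := icur_sup_pos E hf w n
  have h5 : 2 ≤ 2 ^ i := by
    calc 2 = 2 ^ 1 := rfl
      _ ≤ 2 ^ i := Nat.pow_le_pow_right (by norm_num) hi
  nlinarith

/-- values -/
theorem worb_eval (hf : ∀ k, IsMor D (f k)) (w : ℕ → Fin s) (z : K) (v : Fin 2 → K)
    (hv : v ≠ 0) (hvz : v = ![z, 1]) (n : ℕ) : ∃ h : (fun j => (icur K f w n j).eval z) ≠ 0,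
      worb hf w (Projectivization.mk K v hv) n =
        Projectivization.mk K (fun j => (icur K f w n j).eval z) h := by
  induction n with
  | zero =>
    have h1 : (fun j => (icur K f w 0 j).eval z) = v := by
      rw [hvz]
      funext j
      fin_cases j
      · change (Polynomial.X : Polynomial K).eval z = z
        simp
      · change (1 : Polynomial K).eval z = 1
        simp
    refine ⟨by rw [h1]; exact hv, ?_⟩
    change Projectivization.mk K v hv = _
    congr 1
    exact h1.symm
  | succ n ih =>
    obtain ⟨h1, h2⟩ := ih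
    have h3 : (fun j => (icur K f w (n + 1) j).eval z) =
        fun j => aeval (fun j => (icur K f w n j).eval z) (f (w n) j) := by
      funext j
      change (aeval (icur K f w n) (f (w n) j) : Polynomial K).eval z = _
      rw [aeval_evalσ]
    refine ⟨by rw [h3]; exact (hf (w n)).ne h1, ?_⟩
    change pmap (hf (w n)) (worb hf w (Projectivization.mk K v hv) n) = _
    rw [h2, pmap_mk]
    congr 1
    exact h3.symm

theorem icur_map (E : Type) [Field E] [Algebra K E] (w : ℕ → Fin s) (n : ℕ) (j : Fin 2) (z : K) :
    (icur E f w n j).eval (algebraMap K E z) = algebraMap K E ((icur K f w n j).eval z) := by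
  induction n generalizing j with
  | zero =>
    fin_cases j
    · change (Polynomial.X : Polynomial E).eval _ = algebraMap K E ((Polynomial.X : Polynomial K).eval z)
      simp
    · change (1 : Polynomial E).eval _ = algebraMap K E ((1 : Polynomial K).eval z)
      simp
  | succ n ih =>
    change (aeval (icur E f w n) (f (w n) j) : Polynomial E).eval _ =
      algebraMap K E ((aeval (icur K f w n) (f (w n) j) : Polynomial K).eval z)
    rw [aeval_evalσ, aeval_evalσ]
    have h1 : (fun i => (icur E f w n i).eval (algebraMap K E z)) =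
        fun i => algebraMap K E ((icur K f w n i).eval z) := funext ih
    rw [h1]
    exact (comp_aeval_apply (f := fun i => (icur K f w n i).eval z) (Algebra.ofId K E)
      (f (w n) j)).symm

/-- **Points of the line on which two iterates along a word agree.** -/
theorem card_agree (hf : ∀ k, IsMor D (f k)) (w : ℕ → Fin s) (n : ℕ) {i : ℕ} (hi : 0 < i) :
    {Q : ℙ K (Fin 2 → K) | worb hf w Q (n + i) = worb hf w Q n}.encard ≤
      (1 + (D ^ (n + i) + D ^ n) : ℕ) := by
  classical
  let E := AlgebraicClosure K
  let G : Polynomial E :=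
    icur E f w (n + i) 0 * icur E f w n 1 - icur E f w (n + i) 1 * icur E f w n 0
  have hG : G ≠ 0 := icur_ne E hf w n hi
  have hGdeg : G.natDegree ≤ D ^ (n + i) + D ^ n := by
    refine (Polynomial.natDegree_sub_le _ _).trans (max_le ?_ ?_)
    · exact Polynomial.natDegree_mul_le.trans (Nat.add_le_add (icur_deg E hf w _ _)
        (icur_deg E hf w _ _))
    · exact Polynomial.natDegree_mul_le.trans (Nat.add_le_add (icur_deg E hf w _ _)
        (icur_deg E hf w _ _))
  -- the point at infinity
  have hinf : (![1, 0] : Fin 2 → K) ≠ 0 := by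
    intro h
    have h1 := congrFun h 0
    simp at h1
  have hz1 : ∀ z : K, (![z, 1] : Fin 2 → K) ≠ 0 := by
    intro z h
    have h1 := congrFun h 1
    simp at h1
  have hcases : ∀ Q : ℙ K (Fin 2 → K), Q = Projectivization.mk K _ hinf ∨
      ∃ z, Q = Projectivization.mk K _ (hz1 z) := by
    intro Q
    by_cases h1 : Q.rep 1 = 0
    · left
      rw [← Q.mk_rep, Projectivization.mk_eq_mk_iff']
      refine ⟨Q.rep 0, ?_⟩
      funext j
      fin_cases j
      · simp
      · simpa using h1.symm
    · right
      refine ⟨Q.rep 0 / Q.rep 1, ?_⟩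
      conv_lhs => rw [← Q.mk_rep]
      rw [Projectivization.mk_eq_mk_iff']
      refine ⟨Q.rep 1, ?_⟩
      funext j
      fin_cases j
      · simp [mul_div_cancel₀ _ h1]
      · simp
  have hsub : {Q : ℙ K (Fin 2 → K) | worb hf w Q (n + i) = worb hf w Q n} ⊆
      {Projectivization.mk K _ hinf} ∪
        (fun z => Projectivization.mk K _ (hz1 z)) '' {z : K | algebraMap K E z ∈ G.roots} := by
    intro Q hQ
    rcases hcases Q with h1 | ⟨z, rfl⟩
    · exact Or.inl h1
    · right
      refine ⟨z, ?_, rfl⟩
      change algebraMap K E z ∈ G.roots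
      rw [Polynomial.mem_roots hG, Polynomial.IsRoot.def]
      obtain ⟨a1, a2⟩ := worb_eval hf w z _ (hz1 z) rfl (n + i)
      obtain ⟨b1, b2⟩ := worb_eval hf w z _ (hz1 z) rfl n
      have h2 : worb hf w (Projectivization.mk K _ (hz1 z)) (n + i) =
        worb hf w (Projectivization.mk K _ (hz1 z)) n := hQ
      rw [a2, b2, Projectivization.mk_eq_mk_iff'] at h2
      obtain ⟨c, hc⟩ := h2
      have h3 : ∀ j, (icur K f w (n + i) j).eval z = c * (icur K f w n j).eval z := fun j =>
        (congrFun hc j).symm
      simp only [G, Polynomial.eval_sub, Polynomial.eval_mul, icur_map, h3, map_mul]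
      ring
  refine (Set.encard_le_encard hsub).trans ((Set.encard_union_le _ _).trans ?_)
  rw [Set.encard_singleton]
  have h2 : ((fun z => Projectivization.mk K _ (hz1 z)) '' {z : K | algebraMap K E z ∈ G.roots}).encard
      ≤ (D ^ (n + i) + D ^ n : ℕ) := by
    refine (Set.encard_image_le _ _).trans ?_
    have h3 : {z : K | algebraMap K E z ∈ G.roots}.encard ≤
        ((G.roots.toFinset : Finset E) : Set E).encard := by
      have h4 : ((algebraMap K E) '' {z : K | algebraMap K E z ∈ G.roots}) ⊆
          ((G.roots.toFinset : Finset E) : Set E) := by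
        rintro _ ⟨z, hz, rfl⟩
        exact Finset.mem_coe.2 (Multiset.mem_toFinset.2 hz)
      rw [← (algebraMap K E).injective.encard_image]
      exact Set.encard_le_encard h4
    refine h3.trans ?_
    rw [Set.encard_coe_eq_coe_finsetCard]
    have h5 : G.roots.toFinset.card ≤ D ^ (n + i) + D ^ n :=
      (Multiset.toFinset_card_le _).trans ((Polynomial.card_roots' G).trans hGdeg)
    exact_mod_cast h5
  calc (1 : ℕ∞) + _ ≤ 1 + (D ^ (n + i) + D ^ n : ℕ) := by gcongr
    _ = _ := by push_cast; ring

end

end Pool.Agent.Q183.UD
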