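import Pool.Agent.Q183.UD.Window
import Pool.Agent.Q183.UH.APts

/-!
Morphisms of projective space of degree at least two: no bounded families of curves move.
-/

set_option autoImplicit false

namespace Pool.Agent.Q183.UD

open MvPolynomial Filter Pool.Agent.Q183.UH
open Pool.Agent.TH143.HE (NonConst)

variable {N : ℕ}

theorem coeff_prod_top {K : Type} [Field K] {ι : Type} [DecidableEq ι] (s : Finset ι)
    (q : ι → Polynomial K) (d : ι → ℕ) {H : ℕ} (hq : ∀ i, (q i).natDegree ≤ H) :
    (∏ i ∈ s, q i ^ d i).natDegree ≤ (∑ i ∈ s, d i) * H ∧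
      (∏ i ∈ s, q i ^ d i).coeff ((∑ i ∈ s, d i) * H) = ∏ i ∈ s, ((q i).coeff H) ^ d i := by
  induction s using Finset.induction_on with
  | empty => simp
  | insert a s ha ih =>
    rw [Finset.prod_insert ha, Finset.sum_insert ha, Finset.prod_insert ha, add_mul]
    have h1 : (q a ^ d a).natDegree ≤ d a * H := by
      refine (Polynomial.natDegree_pow_le).trans ?_
      exact Nat.mul_le_mul_left _ (hq a)
    refine ⟨(Polynomial.natDegree_mul_le).trans (by omega), ?_⟩
    rw [Polynomial.coeff_mul_add_eq_of_natDegree_le h1 ih.1, ih.2, mul_comm (d a) H]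
    congr 1
    rw [mul_comm H]
    exact Polynomial.coeff_pow_of_natDegree_le (hq a)

/-- the leading coefficients -/
theorem coeff_top {k K : Type} [Field k] [Field K] [Algebra k K]
    {F : MvPolynomial (Fin (N + 1)) k} {e : ℕ} (hF : F.IsHomogeneous e)
    {q : Fin (N + 1) → Polynomial K} {H : ℕ} (hq : ∀ i, (q i).natDegree ≤ H) :
    (aeval q F : Polynomial K).coeff (e * H) = aeval (fun i => (q i).coeff H) F := by
  classical
  rw [aeval_def, aeval_def, eval₂_eq', eval₂_eq', Polynomial.finsetSum_coeff]
  refine Finset.sum_congr rfl fun d hd => ?_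
  have h1 : ∑ i, d i = e := by
    have h2 := hF (mem_support_iff.1 hd)
    rw [← h2, Finsupp.weight_apply, Finsupp.sum_fintype _ _ (fun i => by simp)]
    simp
  have h3 := (coeff_prod_top Finset.univ q (fun i => d i) hq).2
  rw [h1] at h3
  rw [Polynomial.algebraMap_apply, Polynomial.coeff_C_mul, h3]

/-- the values at a primitive vector generate the unit ideal -/
theorem unit_values {k K : Type} [Field k] [Field K] [IsAlgClosed K] [Algebra k K]
    {f : Fin (N + 1) → MvPolynomial (Fin (N + 1)) k}
    (hz : ∀ z : Fin (N + 1) → K, (∀ j, aeval z (f j) = 0) → z = 0)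
    {q h : Fin (N + 1) → Polynomial K} (hh : ∑ i, h i * q i = 1) :
    ∃ a : Fin (N + 1) → Polynomial K, ∑ j, a j * aeval q (f j) = 1 := by
  classical
  have hpr : (Ideal.span (Set.range fun j => (aeval q (f j) : Polynomial K))).IsPrincipal :=
    IsPrincipalIdealRing.principal _
  obtain ⟨g, hg⟩ := hpr
  have hg' : Ideal.span (Set.range fun j => (aeval q (f j) : Polynomial K)) = Ideal.span {g} := hg
  by_cases hdeg : g.degree = 0
  · have hu : IsUnit g := Polynomial.isUnit_iff_degree_eq_zero.2 hdeg
    have h1 : (1 : Polynomial K) ∈ Ideal.span (Set.range fun j => (aeval q (f j) :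
        Polynomial K)) := by
      rw [hg', Ideal.span_singleton_eq_top.2 hu]
      exact Submodule.mem_top
    rw [Ideal.mem_span_range_iff_exists_fun] at h1
    exact h1
  · exfalso
    obtain ⟨z, hz0⟩ : ∃ z, g.eval z = 0 := IsAlgClosed.exists_root g hdeg
    have h1 : ∀ j, aeval (fun i => (q i).eval z) (f j) = 0 := by
      intro j
      rw [← aeval_evalσ]
      have h2 : g ∣ aeval q (f j) := by
        rw [← Ideal.mem_span_singleton, ← hg']
        exact Ideal.subset_span ⟨j, rfl⟩
      obtain ⟨c, hc⟩ := h2
      rw [hc, Polynomial.eval_mul, hz0, zero_mul]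
    have h2 := hz _ h1
    have h3 := congrArg (Polynomial.eval z) hh
    rw [Polynomial.eval_finsetSum, Polynomial.eval_one] at h3
    have h4 : ∀ i, (h i * q i).eval z = 0 := by
      intro i
      rw [Polynomial.eval_mul]
      have h5 : (q i).eval z = 0 := congrFun h2 i
      rw [h5, mul_zero]
    rw [Finset.sum_congr rfl fun i _ => h4 i, Finset.sum_const_zero] at h3
    exact zero_ne_one h3

/-- the degree of the image of a curve -/
theorem degree_image {k K : Type} [Field k] [Field K] [IsAlgClosed K] [Algebra k K]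
    {f : Fin (N + 1) → MvPolynomial (Fin (N + 1)) k} {e : ℕ} (hf : ∀ j, (f j).IsHomogeneous e)
    (hz : ∀ z : Fin (N + 1) → K, (∀ j, aeval z (f j) = 0) → z = 0)
    {q h : Fin (N + 1) → Polynomial K} (hh : ∑ i, h i * q i = 1)
    {w : Fin (N + 1) → Polynomial K} (hw : w ≠ 0)
    (hpar : ∀ i j, w i * aeval q (f j) = w j * aeval q (f i)) :
    e * Finset.univ.sup (fun i => (q i).natDegree) ≤ Finset.univ.sup fun i => (w i).natDegree := by
  classical
  obtain ⟨a, ha⟩ := unit_values hz hh
  set H := Finset.univ.sup (fun i => (q i).natDegree) with hH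
  have hqH : ∀ i, (q i).natDegree ≤ H := fun i =>
    Finset.le_sup (f := fun i => (q i).natDegree) (Finset.mem_univ i)
  -- the leading vector is not zero
  have hq0 : ∃ i, (q i).coeff H ≠ 0 := by
    obtain ⟨i, _, hi⟩ := Finset.exists_mem_eq_sup (Finset.univ : Finset (Fin (N + 1)))
      ⟨0, Finset.mem_univ 0⟩ (fun i => (q i).natDegree)
    by_cases h0 : q i = 0
    · have hH0 : H = 0 := by
        rw [hH, hi, h0, Polynomial.natDegree_zero]
      by_contra hcon
      push Not at hcon
      have h1 : ∀ i, q i = 0 := by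
        intro i
        have h2 := Polynomial.eq_C_of_natDegree_eq_zero (p := q i) (by
          have := hqH i
          omega)
        rw [h2]
        have h3 := hcon i
        rw [hH0] at h3
        rw [h3, map_zero]
      rw [Finset.sum_congr rfl fun i _ => by rw [h1 i, mul_zero], Finset.sum_const_zero] at hh
      exact zero_ne_one hh
    · refine ⟨i, ?_⟩
      rw [hH, hi]
      exact Polynomial.leadingCoeff_ne_zero.2 h0
  obtain ⟨j, hj⟩ : ∃ j, aeval (fun i => (q i).coeff H) (f j) ≠ 0 := by
    by_contra hcon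
    push Not at hcon
    obtain ⟨i, hi⟩ := hq0
    exact hi (congrFun (hz _ hcon) i)
  have h1 : (aeval q (f j) : Polynomial K).coeff (e * H) ≠ 0 := by
    rw [coeff_top (hf j) hqH]
    exact hj
  have h2 : e * H ≤ (aeval q (f j) : Polynomial K).natDegree := Polynomial.le_natDegree_of_ne_zero h1
  have h3 : aeval q (f j) ≠ (0 : Polynomial K) := by
    intro h0
    rw [h0, Polynomial.coeff_zero] at h1
    exact h1 rfl
  have h4 : ∀ i, w i = (∑ j, a j * w j) * aeval q (f i) := by
    intro i
    calc w i = w i * ∑ j, a j * aeval q (f j) := by rw [ha, mul_one]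
      _ = ∑ j, a j * (w i * aeval q (f j)) := by
          rw [Finset.mul_sum]
          exact Finset.sum_congr rfl fun j _ => by ring
      _ = ∑ j, a j * (w j * aeval q (f i)) := Finset.sum_congr rfl fun j _ => by rw [hpar]
      _ = _ := by
          rw [Finset.sum_mul]
          exact Finset.sum_congr rfl fun j _ => by ring
  have h5 : (∑ j, a j * w j) ≠ 0 := by
    intro h0
    apply hw
    funext i
    rw [h4 i, h0, zero_mul]
    rfl
  have h6 : (aeval q (f j) : Polynomial K).natDegree ≤ (w j).natDegree := by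
    rw [h4 j, Polynomial.natDegree_mul h5 h3]
    omega
  exact h2.trans (h6.trans (Finset.le_sup (f := fun i => (w i).natDegree) (Finset.mem_univ j)))

/-- **Morphisms of degree at least two.** -/
theorem nm_morph {κ : Type} {L : Type} [Field L] [Algebra L ℂ]
    {f : κ → Fin (N + 1) → MvPolynomial (Fin (N + 1)) L} {e : κ → ℕ} (he : ∀ k, 2 ≤ e k)
    (hf : ∀ k j, (f k j).IsHomogeneous (e k))
    (hz : ∀ k (z : Fin (N + 1) → ℂ), (∀ j, aeval z (f k j) = 0) → z = 0)
    (GG : Set (MvPolynomial (Fin (N + 1)) L)) : NM f GG := by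
  classical
  intro p D hp hD _ hstep
  choose g q h hg hq hh using fun m => primitive_rep (p m) (hp m)
  let H : ℕ → ℕ := fun m => Finset.univ.sup fun i => (q m i).natDegree
  have hHD : ∀ m, H m ≤ D := by
    intro m
    refine Finset.sup_le fun i _ => ?_
    have h1 := hD m i
    by_cases h0 : q m i = 0
    · rw [h0, Polynomial.natDegree_zero]
      exact Nat.zero_le _
    · rw [hq m i, Polynomial.natDegree_mul (hg m) h0] at h1
      omega
  have hq0 : ∀ m, q m ≠ 0 := by
    intro m h0
    have h1 := hh m
    rw [h0] at h1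
    simp at h1
  have hgrow : ∀ m, 2 * H m ≤ H (m + 1) := by
    intro m
    obtain ⟨k, hk⟩ := hstep m
    have h1 : ∀ i j, q (m + 1) i * aeval (q m) (f k j) = q (m + 1) j * aeval (q m) (f k i) := by
      intro i j
      have h2 := hk i j
      have h3 : p m = fun i => g m * q m i := funext (hq m)
      rw [h3, aeval_mul_hom (hf k j), aeval_mul_hom (hf k i), hq (m + 1) i, hq (m + 1) j] at h2
      have h4 : (g (m + 1) * g m ^ e k) * (q (m + 1) i * aeval (q m) (f k j)) =
          (g (m + 1) * g m ^ e k) * (q (m + 1) j * aeval (q m) (f k i)) := by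
        linear_combination h2
      exact mul_left_cancel₀ (mul_ne_zero (hg _) (pow_ne_zero _ (hg m))) h4
    have h2 := degree_image (hf k) (hz k) (hh m) (hq0 (m + 1)) h1
    refine le_trans ?_ h2
    exact Nat.mul_le_mul_right _ (he k)
  have hpow : ∀ m i, 2 ^ i * H m ≤ H (m + i) := by
    intro m i
    induction i with
    | zero => simp
    | succ i ih =>
      have h1 := hgrow (m + i)
      rw [pow_succ]
      calc 2 ^ i * 2 * H m = 2 * (2 ^ i * H m) := by ring
        _ ≤ 2 * H (m + i) := Nat.mul_le_mul_left _ ih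
        _ ≤ _ := h1
  have hzero : ∀ m, H m = 0 := by
    intro m
    by_contra hne
    have h1 : 1 ≤ H m := Nat.one_le_iff_ne_zero.2 hne
    have h2 := hpow m (D + 1)
    have h3 := hHD (m + (D + 1))
    have h4 : D + 1 < 2 ^ (D + 1) := Nat.lt_two_pow_self
    nlinarith
  refine ⟨0, fun m _ => ?_⟩
  unfold NonConst
  push Not
  intro i j u v
  have h1 : ∀ i z, (p m i).eval z = (g m).eval z * (q m i).coeff 0 := by
    intro i z
    have h2 : (q m i).natDegree = 0 := by
      have h3 : (q m i).natDegree ≤ H m :=
        Finset.le_sup (f := fun i => (q m i).natDegree) (Finset.mem_univ i)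
      rw [hzero m] at h3
      omega
    rw [hq m i, Polynomial.eval_mul]
    congr 1
    rw [Polynomial.eq_C_of_natDegree_eq_zero h2, Polynomial.eval_C, Polynomial.coeff_C_zero]
  rw [h1, h1, h1, h1]
  ring

end Pool.Agent.Q183.UD
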