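import Pool.Agent.Q183.UD.Alg2
import Pool.Agent.Q183.UH.Fin3

/-!
Orbits under finitely many rational maps of projective space.
-/

set_option autoImplicit false

namespace Pool.Agent.Q183.UD

open MvPolynomial Filter Pool.Agent.TH143.DE Pool.Agent.Q183.RS
open Pool.Agent.TH143.HE (NonConst)
open Pool.Agent.Q183.UH Pool.Agent.H533R3.SL

variable {N : ℕ}

theorem aeval_evalσ {k L σ : Type} [Field k] [Field L] [Algebra k L]
    (P : σ → Polynomial L) (F : MvPolynomial σ k) (s : L) :
    (aeval P F : Polynomial L).eval s = aeval (fun i => (P i).eval s) F := by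
  rw [aeval_def, aeval_def]
  show Polynomial.evalRingHom s (MvPolynomial.eval₂ _ _ _) = _
  rw [MvPolynomial.hom_eval₂]
  congr 1
  refine RingHom.ext fun a => ?_
  show (algebraMap k (Polynomial L) a).eval s = algebraMap k L a
  rw [Polynomial.algebraMap_apply, Polynomial.eval_C]

/-- The point with homogeneous coordinates `w` is the image of the point with homogeneous
coordinates `v` under one of the maps `f k` (or `f k` is not defined at `v`). -/
def Step {κ : Type} {K S : Type} [Field K] [CommRing S] [Algebra K S]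
    (f : κ → Fin (N + 1) → MvPolynomial (Fin (N + 1)) K) (v w : Fin (N + 1) → S) : Prop :=
  ∃ k, ∀ i j, w i * aeval v (f k j) = w j * aeval v (f k i)

/-- products of the equations of the graphs -/
noncomputable def prodF {κ : Type} [Fintype κ] {K : Type} [Field K]
    (f : κ → Fin (N + 1) → MvPolynomial (Fin (N + 1)) K) (c : κ → Fin (N + 1) × Fin (N + 1)) :
    MvPolynomial (Fin (N + 1) ⊕ Fin (N + 1)) K :=
  ∏ k, (X (Sum.inr (c k).1) * rename Sum.inl (f k (c k).2) -
    X (Sum.inr (c k).2) * rename Sum.inl (f k (c k).1))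

theorem aeval_prodF {κ : Type} [Fintype κ] {K S : Type} [Field K] [CommRing S] [Algebra K S]
    (f : κ → Fin (N + 1) → MvPolynomial (Fin (N + 1)) K) (c : κ → Fin (N + 1) × Fin (N + 1))
    (v w : Fin (N + 1) → S) : aeval (Sum.elim v w) (prodF f c) =
      ∏ k, (w (c k).1 * aeval v (f k (c k).2) - w (c k).2 * aeval v (f k (c k).1)) := by
  unfold prodF
  rw [map_prod]
  refine Finset.prod_congr rfl fun k _ => ?_
  rw [map_sub, map_mul, map_mul, aeval_X, aeval_X, aeval_rename, aeval_rename]
  rfl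

theorem step_iff {κ : Type} [Fintype κ] {K S : Type} [Field K] [CommRing S] [IsDomain S]
    [Algebra K S] (f : κ → Fin (N + 1) → MvPolynomial (Fin (N + 1)) K) (v w : Fin (N + 1) → S) :
    Step f v w ↔ ∀ c, aeval (Sum.elim v w) (prodF f c) = 0 := by
  constructor
  · rintro ⟨k, hk⟩ c
    rw [aeval_prodF]
    exact Finset.prod_eq_zero (Finset.mem_univ k) (by rw [hk, sub_self])
  · intro h
    by_contra hcon
    unfold Step at hcon
    push Not at hcon
    choose i j hij using hcon
    have h1 := h fun k => (i k, j k)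
    rw [aeval_prodF] at h1
    obtain ⟨k, _, hk⟩ := Finset.prod_eq_zero_iff.1 h1
    exact hij k (sub_eq_zero.1 hk)

theorem Step.map {κ : Type} {K S S' : Type} [Field K] [CommRing S] [Algebra K S] [CommRing S']
    [Algebra K S'] (g : S →ₐ[K] S') {f : κ → Fin (N + 1) → MvPolynomial (Fin (N + 1)) K}
    {v w : Fin (N + 1) → S} (h : Step f v w) :
    Step f (fun i => g (v i)) (fun i => g (w i)) := by
  obtain ⟨k, hk⟩ := h
  refine ⟨k, fun i j => ?_⟩
  have h1 := congrArg g (hk i j)
  rw [map_mul, map_mul, comp_aeval_apply, comp_aeval_apply] at h1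
  exact h1

/-- scaling -/
theorem Step.smul {κ : Type} {K S : Type} [Field K] [Field S] [Algebra K S]
    {f : κ → Fin (N + 1) → MvPolynomial (Fin (N + 1)) K}
    (hf : ∀ k, ∃ e, ∀ j, (f k j).IsHomogeneous e) {v w : Fin (N + 1) → S}
    (h : Step f v w) (a b : S) : Step f (fun i => a * v i) (fun i => b * w i) := by
  obtain ⟨k, hk⟩ := h
  obtain ⟨e, he⟩ := hf k
  refine ⟨k, fun i j => ?_⟩
  have h1 : ∀ j, aeval (fun i => a * v i) (f k j) = a ^ e * aeval v (f k j) := fun j =>
    aeval_smul_homL (he j) a v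
  rw [h1, h1]
  linear_combination b * a ^ e * hk i j

/-- Bounded families of curves which satisfy the relation are constant from some index on. -/
def NM {κ : Type} {L : Type} [Field L] [Algebra L ℂ]
    (f : κ → Fin (N + 1) → MvPolynomial (Fin (N + 1)) L)
    (GG : Set (MvPolynomial (Fin (N + 1)) L)) : Prop :=
  ∀ (p : ℕ → Fin (N + 1) → Polynomial ℂ) (D : ℕ), (∀ m, p m ≠ 0) →
    (∀ m i, (p m i).natDegree ≤ D) → (∀ m, ∀ G ∈ GG, aeval (p m) G ≠ 0) →
    (∀ m, Step f (p m) (p (m + 1))) → ∃ m1, ∀ m, m1 ≤ m → ¬ NonConst (p m)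

variable {L : Type} [Field L] [Algebra L ℂ]

/-- the curves of the difference Galois group -/
theorem no_moves {κ : Type} [Fintype κ] {f : κ → Fin (N + 1) → MvPolynomial (Fin (N + 1)) L}
    (hf : ∀ k, ∃ e, ∀ j, (f k j).IsHomogeneous e) {GG : Set (MvPolynomial (Fin (N + 1)) L)}
    (hNM : NM f GG) {R : ℕ} {x : ℕ → Fin (N + 1) → ℂ} (hne : ∀ m, x m ≠ 0)
    (hG : ∀ m, ∀ G ∈ GG, aeval (x m) G ≠ 0) {t : ℕ} (l : Fin R → ℤ)
    (u : ℕ → Fin R → Fin (N + 1) → ℂ) (hu : ∀ᶠ m in atTop, ∑ i, u m i = x (m + t))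
    (hS : ∀ᶠ m in atTop, ∀ F ∈ Set.range fun c => MvPolynomial.map (algebraMap L ℂ) (prodF f c),
      ∀ w : ℂ, w ≠ 0 → eval (Sum.elim (∑ i, w ^ (l i) • u m i)
          (∑ i, w ^ (l i) • u (m + 1) i)) F = 0) (c1 c0 : Fin (N + 1) → ℂ) :
    ∀ᶠ m in atTop, lf c1 (∑ i, (l i : ℂ) • u m i) * (0 + lf c0 (x (m + t))) -
          lf c1 (x (m + t)) * lf c0 (∑ i, (l i : ℂ) • u m i) = 0 := by
  classical
  obtain ⟨a, l', hl'⟩ := exists_shiftexp l
  obtain ⟨m0, hm0⟩ := eventually_atTop.1 (hu.and hS)
  have hev : ∀ (v : Fin R → Fin (N + 1) → ℂ) (w : ℂ), w ≠ 0 →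
      (fun j => (cur v l' j).eval w) = fun j => w ^ a * (∑ i, w ^ (l i) • v i) j := by
    intro v w hw
    funext j
    rw [eval_cur, Finset.sum_apply, Finset.mul_sum]
    refine Finset.sum_congr rfl fun i _ => ?_
    rw [pow_shift hl' hw, Pi.smul_apply, smul_eq_mul]
    ring
  have hev1 : ∀ (v : Fin R → Fin (N + 1) → ℂ), (fun j => (cur v l' j).eval 1) = ∑ i, v i := by
    intro v
    rw [hev v 1 one_ne_zero]
    funext j
    simp
  obtain ⟨m1, hm1⟩ := hNM (fun m => cur (u (m0 + m)) l') (∑ i, l' i) (fun m h0 => by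
      apply hne (m0 + m + t)
      rw [← (hm0 (m0 + m) (by omega)).1, ← hev1]
      funext j
      have h1 : cur (u (m0 + m)) l' j = 0 := congrFun h0 j
      rw [h1, Polynomial.eval_zero]
      rfl) (fun m i => by
      unfold Pool.Agent.H533R3.SL.cur
      refine Polynomial.natDegree_sum_le_of_forall_le _ _ fun j _ => ?_
      refine (Polynomial.natDegree_C_mul_X_pow_le _ _).trans ?_
      exact Finset.single_le_sum (f := l') (fun _ _ => Nat.zero_le _) (Finset.mem_univ j))
    (fun m G hGG h0 => by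
      have h1 := congrArg (Polynomial.eval 1) h0
      rw [aeval_eval', hev1, (hm0 (m0 + m) (by omega)).1, Polynomial.eval_zero] at h1
      exact hG _ G hGG h1) (fun m => by
      rw [step_iff]
      intro c
      apply poly_ext_ne
      intro w hw
      obtain ⟨h1, h2⟩ := hm0 (m0 + m) (by omega)
      have h3 : Step f (∑ i, w ^ (l i) • u (m0 + m) i) (∑ i, w ^ (l i) • u (m0 + m + 1) i) := by
        rw [step_iff]
        intro c
        have h4 := h2 _ ⟨c, rfl⟩ w hw
        rwa [ev_map] at h4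
      have h5 := h3.smul hf (w ^ a) (w ^ a)
      rw [← hev _ w hw, ← hev _ w hw, step_iff] at h5
      have h6 := h5 c
      rw [Polynomial.eval_zero, ← h6, aeval_evalσ]
      congr 2
      funext p
      rcases p with j | j
      · rfl
      · rfl)
  filter_upwards [eventually_ge_atTop (m0 + m1)] with m hm
  obtain ⟨m', rfl⟩ := Nat.exists_eq_add_of_le (show m0 ≤ m by omega)
  have hc := hm1 m' (by omega)
  unfold NonConst at hc
  push Not at hc
  have hx := (hm0 (m0 + m') (by omega)).1
  have hxj : ∀ j, (cur (u (m0 + m')) l' j).eval 1 = x (m0 + m' + t) j := by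
    intro j
    rw [← hx, ← hev1]
  have h2 : ∀ i i' : Fin (N + 1), (∑ i, (l i : ℂ) • u (m0 + m') i) i * x (m0 + m' + t) i' =
      (∑ i, (l i : ℂ) • u (m0 + m') i) i' * x (m0 + m' + t) i := by
    intro i i'
    have h3 : cur (u (m0 + m')) l' i * Polynomial.C (x (m0 + m' + t) i') =
        cur (u (m0 + m')) l' i' * Polynomial.C (x (m0 + m' + t) i) := by
      apply Polynomial.funext
      intro z
      rw [Polynomial.eval_mul, Polynomial.eval_mul, Polynomial.eval_C, Polynomial.eval_C, ← hxj,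
        ← hxj]
      exact hc i i' z 1
    have h4 := congrArg (fun p => (Polynomial.derivative p).eval 1) h3
    simp only [Polynomial.derivative_mul, Polynomial.derivative_C, mul_zero, add_zero,
      Polynomial.eval_mul, Polynomial.eval_C] at h4
    rw [cur_deriv _ hl', cur_deriv _ hl', hx] at h4
    linear_combination h4
  have h3 : lf c1 (∑ i, (l i : ℂ) • u (m0 + m') i) * lf c0 (x (m0 + m' + t)) =
      lf c1 (x (m0 + m' + t)) * lf c0 (∑ i, (l i : ℂ) • u (m0 + m') i) := by
    unfold lf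
    rw [Finset.sum_mul_sum, Finset.sum_mul_sum]
    refine Finset.sum_congr rfl fun i _ => Finset.sum_congr rfl fun i' _ => ?_
    linear_combination c1 i * c0 i' * h2 i i'
  rw [zero_add, h3, sub_self]

end Pool.Agent.Q183.UD
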