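import Pool.Agent.Q183.UD.Step
import Pool.Agent.Q183.UH.Win2

/-!
Recurrent sequences which are orbits: the first window.
-/

set_option autoImplicit false

namespace Pool.Agent.Q183.UD

open MvPolynomial Filter Pool.Agent.TH143.DE Pool.Agent.Q183.RS
open Pool.Agent.TH143.HE (NonConst exists_linear)
open Pool.Agent.Q183.UH Pool.Agent.H533R3.SL
open Pool.Agent.TH143.HE (RB RB_field)

variable {N : ℕ} {L : Type} [Field L] [Algebra L ℂ]

/-- **Recurrent orbits are eventually periodic** if no families of curves move. -/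
theorem dyn_window {κ : Type} [Fintype κ] {f : κ → Fin (N + 1) → MvPolynomial (Fin (N + 1)) L}
    (hf : ∀ k, ∃ e, ∀ j, (f k j).IsHomogeneous e) {GG : Set (MvPolynomial (Fin (N + 1)) L)}
    (hGG : ∀ G ∈ GG, ∃ e, G.IsHomogeneous e) (hNM : NM f GG) {q : ℕ}
    {y : ℕ → Fin (N + 1) → L} (hne : ∀ m, y m ≠ 0) (hy : ∀ j, PRecO q fun m => y m j)
    (hG : ∀ m, ∀ G ∈ GG, eval (y m) G ≠ 0) (hS : ∀ m, Step f (y m) (y (m + 1))) :
    ∃ M i0 : ℕ, 0 < M ∧ ∀ i, i0 ≤ i → Par (y i) (y (i + M)) := by
  classical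
  let x : ℕ → Fin (N + 1) → ℂ := fun m j => algebraMap L ℂ (y m j)
  have hxne : ∀ m, x m ≠ 0 := fun m h0 => hne m (by
    funext j
    have h1 : algebraMap L ℂ (y m j) = 0 := congrFun h0 j
    rwa [map_eq_zero] at h1)
  have hrec : ∀ j, RecO RB q fun m => x m j := fun j => (hy j).recRB
  have hxG : ∀ m, ∀ G ∈ GG, aeval (x m) G ≠ 0 := by
    intro m G hGG' h0
    change aeval (fun j => algebraMap L ℂ (y m j)) G = 0 at h0
    rw [aeval_alg, map_eq_zero] at h0
    exact hG m G hGG' h0
  have hxS : ∀ m, Step f (x m) (x (m + 1)) := fun m => (hS m).map (Algebra.ofId L ℂ)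
  obtain ⟨t, ht⟩ := alg_dyn RB_field (R := (N + 1) * q) (by rw [Fintype.card_fin]) hrec
    (Set.range fun c => MvPolynomial.map (algebraMap L ℂ) (prodF f c)) (by
      rintro _ ⟨c, rfl⟩
      refine Eventually.of_forall fun m => ?_
      rw [ev_map]
      exact (step_iff f _ _).1 (hxS m) c)
  obtain ⟨c, hc⟩ := exists_linear x hxne
  have hlf : ∀ (j : Fin (N + 1)) (v : Fin (N + 1) → ℂ), lf (Pi.single j 1) v = v j := by
    intro j v
    unfold lf
    simp [Pi.single_apply]
  have halg : ∀ j, AlgOn RB {m | ∃ l : Unit, eval (x m) ((fun _ => 1 : Unit →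
      MvPolynomial (Fin (N + 1)) ℂ) l) ≠ 0}
      (fun m => x m j / lf (fun j : Fin (N + 1) => c ^ (j : ℕ)) (x m)) := by
    intro j
    have huniv : {m | ∃ l : Unit, eval (x m) ((fun _ => 1 : Unit →
      MvPolynomial (Fin (N + 1)) ℂ) l) ≠ 0} = Set.univ := by
      ext m
      simp
    rw [huniv]
    apply AlgOn.unshift (t := t)
    have h1 := ht (Pi.single j 1) (fun j => c ^ (j : ℕ)) 0 (Eventually.of_forall fun m => by
        rw [zero_add]
        exact hc m) fun l u hu hSu => no_moves hf hNM hxne hxG l u hu hSu _ _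
    simp only [zero_add, hlf] at h1
    exact h1
  obtain ⟨M, ρ, hM, h⟩ := str (x := x) (fun j => (hrec j).lin)
    (fun _ : Unit => (1 : MvPolynomial (Fin (N + 1)) ℂ)) (fun j => c ^ (j : ℕ)) hc halg
  have h' : ∀ a, ∀ᶠ i : ℕ in atTop, ∃ b : ℂ, b ≠ 0 ∧
      ∀ j, (ρ a j).eval ((a + M * i : ℕ) : ℂ) = b * x (a + M * i) j := by
    intro a
    rcases h a with h1 | h1
    · obtain ⟨i, hi⟩ := h1.exists
      have h2 := hi ()
      rw [map_one] at h2
      exact absurd h2 one_ne_zero
    · exact h1
  -- all indices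
  obtain ⟨m0, hm0⟩ : ∃ m0, ∀ m, m0 ≤ m → ∃ b : ℂ, b ≠ 0 ∧
      ∀ j, (ρ (m % M) j).eval (m : ℂ) = b * x m j := by
    have h1 : ∀ᶠ i in atTop, ∀ a ∈ Finset.range M, ∃ b : ℂ, b ≠ 0 ∧
        ∀ j, (ρ a j).eval ((a + M * i : ℕ) : ℂ) = b * x (a + M * i) j := by
      rw [Finset.eventually_all]
      intro a _
      exact h' a
    obtain ⟨i1, hi1⟩ := eventually_atTop.1 h1
    refine ⟨M * (i1 + 1), fun m hm => ?_⟩
    have h9 := hi1 (m / M) ?_ (m % M) (Finset.mem_range.2 (Nat.mod_lt m hM))
    · rw [Nat.mod_add_div] at h9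
      exact h9
    · rw [Nat.le_div_iff_mul_le hM]
      nlinarith
  -- the curve of a residue class is not zero
  have hinf : ∀ a, a < M → ∀ P : Polynomial ℂ, (∀ m, m0 ≤ m → m % M = a → P.eval (m : ℂ) = 0) →
      P = 0 := by
    intro a ha P hP
    apply Polynomial.eq_zero_of_infinite_isRoot
    refine Set.Infinite.mono (s := (fun i : ℕ => ((a + M * i : ℕ) : ℂ)) '' Set.Ici m0) ?_ ?_
    · rintro _ ⟨i, hi, rfl⟩
      refine hP _ ?_ ?_
      · have h1 : m0 ≤ i := hi
        nlinarith
      · rw [Nat.add_mul_mod_self_left, Nat.mod_eq_of_lt ha]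
    · refine (Set.Ici_infinite m0).image ?_
      intro i _ i' _ h1
      have h2 : a + M * i = a + M * i' := Nat.cast_injective h1
      have h3 : M * i = M * i' := by omega
      exact Nat.eq_of_mul_eq_mul_left hM h3
  have hstep : ∀ a, a < M → Step f (ρ a)
      (fun j => (ρ ((a + 1) % M) j).comp (Polynomial.X + Polynomial.C 1)) := by
    intro a ha
    rw [step_iff]
    intro c
    refine hinf a ha _ fun m hm hma => ?_
    rw [aeval_evalσ]
    obtain ⟨b, hb, h1⟩ := hm0 m hm
    obtain ⟨b', hb', h2⟩ := hm0 (m + 1) (by omega)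
    have h3 := ((hxS m).smul hf b b')
    have h4 : (m + 1) % M = (a + 1) % M := by
      rw [Nat.add_mod, hma, Nat.add_mod a 1, Nat.mod_eq_of_lt ha]
    rw [hma] at h1
    rw [h4] at h2
    have h5 := (step_iff f _ _).1 h3 c
    rw [← h5]
    congr 2
    funext p
    rcases p with j | j
    · exact h1 j
    · change ((ρ ((a + 1) % M) j).comp (Polynomial.X + Polynomial.C 1)).eval (m : ℂ) =
        b' * x (m + 1) j
      rw [← h2 j, eval_shift, Nat.cast_add, Nat.cast_one]
  -- the family of curves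
  let p : ℕ → Fin (N + 1) → Polynomial ℂ := fun m j =>
    (ρ (m % M) j).comp (Polynomial.X + Polynomial.C (m : ℂ))
  have hpev : ∀ m j (z : ℂ), (p m j).eval z = (ρ (m % M) j).eval (z + m) := fun m j z =>
    eval_shift _ _ _
  obtain ⟨m1, hm1⟩ := hNM p (Finset.univ.sup fun a : Fin M => Finset.univ.sup fun j =>
      (ρ a j).natDegree) (fun m h0 => by
      have h1 : ∀ j, ρ (m % M) j = 0 := by
        intro j
        have h2 : ∀ z, (ρ (m % M) j).eval z = 0 := by
          intro z
          have h3 := congrArg (Polynomial.eval (z - m)) (congrFun h0 j)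
          rw [hpev] at h3
          simpa using h3
        exact Polynomial.funext fun z => by rw [h2, Polynomial.eval_zero]
      obtain ⟨b, hb, h2⟩ := hm0 (m % M + M * m0) (by nlinarith [Nat.zero_le (m % M)])
      rw [Nat.add_mul_mod_self_left, Nat.mod_mod] at h2
      apply hxne (m % M + M * m0)
      funext j
      have h3 := h2 j
      rw [h1, Polynomial.eval_zero] at h3
      exact (mul_eq_zero.1 h3.symm).resolve_left hb) (fun m i => by
      refine (natDegree_shift_le _ _).trans ?_
      have h1 : (ρ (m % M) i).natDegree ≤ Finset.univ.sup fun j => (ρ (m % M) j).natDegree :=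
        Finset.le_sup (f := fun j => (ρ (m % M) j).natDegree) (Finset.mem_univ i)
      refine h1.trans ?_
      exact Finset.le_sup (f := fun a : Fin M => Finset.univ.sup fun j => (ρ a j).natDegree)
        (Finset.mem_univ (⟨m % M, Nat.mod_lt m hM⟩ : Fin M))) (fun m G hG' h0 => by
      obtain ⟨e, he⟩ := hGG G hG'
      obtain ⟨b, hb, h2⟩ := hm0 (m % M + M * m0) (by nlinarith [Nat.zero_le (m % M)])
      rw [Nat.add_mul_mod_self_left, Nat.mod_mod] at h2
      have h1 := congrArg (Polynomial.eval (((m % M + M * m0 : ℕ) : ℂ) - m)) h0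
      rw [aeval_evalσ, Polynomial.eval_zero] at h1
      have h3 : (fun i => (p m i).eval (((m % M + M * m0 : ℕ) : ℂ) - m)) =
          fun i => b * x (m % M + M * m0) i := by
        funext i
        rw [hpev, sub_add_cancel, h2]
      rw [h3, aeval_smul_h he] at h1
      rcases mul_eq_zero.1 h1 with h4 | h4
      · exact pow_ne_zero _ hb h4
      · exact hxG _ G hG' h4) (fun m => by
      have h1 := (hstep (m % M) (Nat.mod_lt m hM)).map
        ((Polynomial.aeval (Polynomial.X + Polynomial.C (m : ℂ)) :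
          Polynomial ℂ →ₐ[ℂ] Polynomial ℂ).restrictScalars L)
      have h2 : (m % M + 1) % M = (m + 1) % M := by
        rw [Nat.mod_add_mod]
      rw [h2] at h1
      have h3 : (fun i => ((Polynomial.aeval (Polynomial.X + Polynomial.C (m : ℂ)) :
          Polynomial ℂ →ₐ[ℂ] Polynomial ℂ).restrictScalars L) ((ρ ((m + 1) % M) i).comp
            (Polynomial.X + Polynomial.C 1))) = p (m + 1) := by
        funext i
        change ((ρ ((m + 1) % M) i).comp (Polynomial.X + Polynomial.C 1)).comp
          (Polynomial.X + Polynomial.C (m : ℂ)) = _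
        apply Polynomial.funext
        intro z
        rw [hpev]
        simp only [Polynomial.eval_comp, Polynomial.eval_add, Polynomial.eval_X,
          Polynomial.eval_C]
        congr 1
        push_cast
        ring
      rw [h3] at h1
      exact h1)
  refine ⟨M, max m0 m1, hM, fun i hi => ?_⟩
  have hc1 := hm1 i (le_trans (le_max_right _ _) hi)
  unfold NonConst at hc1
  push Not at hc1
  obtain ⟨b, hb, h1⟩ := hm0 i (le_trans (le_max_left _ _) hi)
  obtain ⟨b', hb', h2⟩ := hm0 (i + M) (by have := le_trans (le_max_left _ _) hi; omega)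
  rw [Nat.add_mod_right] at h2
  intro j k
  apply (algebraMap L ℂ).injective
  rw [map_mul, map_mul]
  change x i j * x (i + M) k = x i k * x (i + M) j
  have h3 := hc1 j k 0 (M : ℂ)
  rw [hpev, hpev, hpev, hpev, zero_add] at h3
  have h4 : (M : ℂ) + i = ((i + M : ℕ) : ℂ) := by
    push_cast
    ring
  rw [h4, h1, h1, h2, h2] at h3
  have h5 : (b * b') * (x i j * x (i + M) k - x i k * x (i + M) j) = 0 := by
    linear_combination h3
  exact sub_eq_zero.1 ((mul_eq_zero.1 h5).resolve_left (mul_ne_zero hb hb'))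

end Pool.Agent.Q183.UD
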