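import Pool.Agent.Q183.UD.Line

/-!
Counting points with recurrent orbits along words.
-/

set_option autoImplicit false

namespace Pool.Agent.Q183.UD

open MvPolynomial Filter Pool.Agent.Q183.UH
open scoped LinearAlgebra.Projectivization

variable {N s D : ℕ} {K : Type} [Field K]

theorem worb_congr {f : Fin s → Fin (N + 1) → MvPolynomial (Fin (N + 1)) K}
    (hf : ∀ k, IsMor D (f k)) {w w' : ℕ → Fin s} (Q : ℙ K (Fin (N + 1) → K)) {n : ℕ}
    (h : ∀ i < n, w i = w' i) : worb hf w Q n = worb hf w' Q n := by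
  induction n with
  | zero => rfl
  | succ n ih =>
    change pmap (hf (w n)) (worb hf w Q n) = pmap (hf (w' n)) (worb hf w' Q n)
    rw [ih fun i hi => h i (by omega)]
    have h1 := h n (by omega)
    rw [h1]

theorem worb_const {f : Fin s → Fin (N + 1) → MvPolynomial (Fin (N + 1)) K}
    (hf : ∀ k, IsMor D (f k)) (k : Fin s) (Q : ℙ K (Fin (N + 1) → K)) (n : ℕ) :
    worb hf (fun _ => k) Q n = (pmap (hf k))^[n] Q := by
  induction n with
  | zero => rfl
  | succ n ih =>
    rw [Function.iterate_succ_apply', ← ih]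
    rfl

/-- the number of points of a set covered by finitely many small sets -/
theorem encard_words {α : Type} {s n b : ℕ} (S : (Fin n → Fin s) → Set α)
    (hS : ∀ u, (S u).encard ≤ (b : ℕ)) : (⋃ u, S u).encard ≤ (s ^ n * b : ℕ) := by
  classical
  have hfin : ∀ u, (S u).Finite := fun u => Set.finite_of_encard_le_coe (hS u)
  let T : Finset α := Finset.univ.biUnion fun u => (hfin u).toFinset
  have h1 : (⋃ u, S u) = (T : Set α) := by
    ext x
    simp [T]
  rw [h1, Set.encard_coe_eq_coe_finsetCard]
  have h2 : T.card ≤ (Finset.univ : Finset (Fin n → Fin s)).card * b := by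
    refine Finset.card_biUnion_le_card_mul _ _ _ fun u _ => ?_
    have h3 := hS u
    rw [(hfin u).encard_eq_coe_toFinset_card] at h3
    exact_mod_cast h3
  rw [Finset.card_univ, Fintype.card_fun, Fintype.card_fin, Fintype.card_fin] at h2
  exact_mod_cast h2

/-- the set of points for which the iterates of lengths `n` and `n + i` along some word agree -/
theorem encard_agree {f : Fin s → Fin 2 → MvPolynomial (Fin 2) K}
    (hf : ∀ k, IsMor D (f k)) (n : ℕ) {i : ℕ} (hi : 0 < i) :
    {Q : ℙ K (Fin 2 → K) | ∃ w : ℕ → Fin s, worb hf w Q (n + i) = worb hf w Q n}.encard ≤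
      (s ^ (n + i) * (1 + (D ^ (n + i) + D ^ n)) : ℕ) := by
  classical
  rcases Nat.eq_zero_or_pos s with hs | hs
  · subst hs
    have h1 : {Q : ℙ K (Fin 2 → K) | ∃ w : ℕ → Fin 0, worb hf w Q (n + i) = worb hf w Q n} = ∅ := by
      ext Q
      simp only [Set.mem_ofPred_eq, Set.mem_empty_iff_false, iff_false]
      rintro ⟨w, _⟩
      exact (w 0).elim0
    rw [h1, Set.encard_empty]
    exact bot_le
  · let ext : (Fin (n + i) → Fin s) → ℕ → Fin s := fun u m =>
      if h : m < n + i then u ⟨m, h⟩ else ⟨0, hs⟩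
    refine (Set.encard_le_encard ?_).trans (encard_words (fun u => {Q : ℙ K (Fin 2 → K) |
      worb hf (ext u) Q (n + i) = worb hf (ext u) Q n}) fun u => card_agree hf (ext u) n hi)
    rintro Q ⟨w, hw⟩
    rw [Set.mem_iUnion]
    refine ⟨fun m => w m, ?_⟩
    have h1 : ∀ m < n + i, ext (fun m => w m) m = w m := fun m hm => dif_pos hm
    change worb hf (ext fun m => w m) Q (n + i) = worb hf (ext fun m => w m) Q n
    rw [worb_congr hf Q (n := n + i) h1, worb_congr hf Q (n := n) fun m hm => h1 m (by omega)]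
    exact hw

end Pool.Agent.Q183.UD
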